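import Pool.Agent.J4.H63.OP.Sound

/-!
# Perfect codes from values of the wires
-/

set_option autoImplicit false

namespace Pool.Agent.J4.H63.OP

variable {D : Net}

/-- the selected kinds in a crossing gadget -/
def csol (x y p q : Bool) : List ℕ :=
  (if x then (if y then [3, 7, 12, 19, 23] else [3, 7, 13, 17, 23])
    else (if y then [2, 5, 15, 19, 25] else [0, 9, 12, 21, 27])) ++
  (if p then [1, 11, 18, 22, 28] else (if q then [4, 8, 16, 24, 29] else [4, 8, 14, 20, 26]))

/-- the selected kinds in a wire gadget -/
def psol (x q : Bool) : List ℕ :=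
  (if x then [33, 37] else [32, 35]) ++ (if q then [36, 40] else [34, 38])

/-- the indicator of a kind -/
def ind (l : List ℕ) (t : ℕ) : ℕ := if t ∈ l then 1 else 0

/-- the value at a port from outside -/
def outv (x y p q : Bool) (t : ℕ) : ℕ :=
  if t = 7 then p.toNat else if t = 19 then q.toNat else if t = 28 then x.toNat
  else if t = 29 then y.toNat else 0

theorem csol_spec : ∀ x y p q : Bool, (p && q) = false → ∀ t ∈ List.range 30,
    outv x y p q t + ((adjl.getD t []).map (ind (csol x y p q))).sum = 1 := by decide +kernel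

theorem psol_spec : ∀ x q : Bool, ∀ t ∈ List.range 42, 30 ≤ t →
    (if t = 33 then q.toNat else if t = 40 then x.toNat else 0) +
      ((adjl.getD t []).map (ind (psol x q))).sum = 1 := by decide +kernel

theorem csol_port : ∀ x y p q : Bool, (p && q) = false →
    ind (csol x y p q) 7 = x.toNat ∧ ind (csol x y p q) 19 = y.toNat ∧
    ind (csol x y p q) 28 = p.toNat ∧ ind (csol x y p q) 29 = q.toNat := by decide +kernel

theorem psol_port : ∀ x q : Bool,
    ind (psol x q) 33 = x.toNat ∧ ind (psol x q) 40 = q.toNat := by decide +kernel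

/-- the selected vertices -/
def sel (D : Net) (X Y : ℕ → Bool) (v : Lb) : ℕ :=
  if v.2.2 = 42 then (X v.1).toNat
  else if v.2.2 = 43 then (Y (D.rho v.2.1)).toNat
  else if v.2.2 < 30 then
    ind (csol (X v.1) (X (D.rho v.2.1)) (Y v.1) (Y (D.rho v.2.1))) v.2.2
  else if v.2.1 ≤ D.pi v.1 then ind (psol (X v.1) (Y v.1)) v.2.2
  else ind (psol (X (D.rho v.2.1)) (Y (D.rho v.2.1))) v.2.2

/-- the conditions for the values of the wires -/
structure Val (D : Net) (X Y : ℕ → Bool) : Prop where
  x3 : ∀ i < D.N, X (3 * (i / 3) + 1) = X i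
  y3 : ∀ j < D.N, Y (D.rho (3 * (j / 3) + 1)) = Y (D.rho j)
  xb : ∀ b, 3 * b < D.N → (X (D.rho (3 * b))).toNat + (X (D.rho (3 * b + 1))).toNat +
    (X (D.rho (3 * b + 2))).toNat = 1
  ya : ∀ a, 3 * a < D.N → (Y (3 * a)).toNat + (Y (3 * a + 1)).toNat + (Y (3 * a + 2)).toNat = 1
  nc : ∀ i < D.N, ∀ j < D.N, D.rho j < i → j ≤ D.pi i → (Y i && Y (D.rho j)) = false

variable {X Y : ℕ → Bool}

theorem sel_c {i j t : ℕ} (ht : t < 30) : sel D X Y (i, j, t) =
    ind (csol (X i) (X (D.rho j)) (Y i) (Y (D.rho j))) t := by
  unfold sel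
  dsimp only
  rw [if_neg (by omega), if_neg (by omega), if_pos ht]

theorem sel_p1 {i j t : ℕ} (ht : 30 ≤ t) (ht' : t < 42) (h : j ≤ D.pi i) :
    sel D X Y (i, j, t) = ind (psol (X i) (Y i)) t := by
  unfold sel
  dsimp only
  rw [if_neg (by omega), if_neg (by omega), if_neg (by omega), if_pos h]

theorem sel_p2 {i j t : ℕ} (ht : 30 ≤ t) (ht' : t < 42) (h : ¬ j ≤ D.pi i) :
    sel D X Y (i, j, t) = ind (psol (X (D.rho j)) (Y (D.rho j))) t := by
  unfold sel
  dsimp only
  rw [if_neg (by omega), if_neg (by omega), if_neg (by omega), if_neg h]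

theorem v_il (hV : Val D X Y) {i j : ℕ} (hi : i < D.N) (hj : j < D.N) (h : j ≤ D.pi i) :
    sel D X Y (il D i j) = (Y i).toNat := by
  unfold il
  split_ifs with h1
  · rw [sel_c (by omega)]
    exact (csol_port _ _ _ _ (hV.nc i hi j hj h1 h)).2.2.1
  · rw [sel_p1 (by omega) (by omega) h]
    exact (psol_port _ _).2

theorem v_it (hV : Val D X Y) {i j : ℕ} (hi : i < D.N) (hj : j < D.N) (h : D.rho j < i) :
    sel D X Y (it D i j) = (Y (D.rho j)).toNat := by
  unfold it
  split_ifs with h1
  · rw [sel_c (by omega)]
    exact (csol_port _ _ _ _ (hV.nc i hi j hj h h1)).2.2.2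
  · rw [sel_p2 (by omega) (by omega) h1]
    exact (psol_port _ _).2

theorem v_ro (hV : Val D X Y) {i j : ℕ} (hi : i < D.N) (hj : j < D.N) (h : j ≤ D.pi i) :
    sel D X Y (ro D i j) = (X i).toNat := by
  unfold ro
  split_ifs with h1
  · rw [sel_c (by omega)]
    exact (csol_port _ _ _ _ (hV.nc i hi j hj h1 h)).1
  · rw [sel_p1 (by omega) (by omega) h]
    exact (psol_port _ _).1

theorem v_bo (hD : D.Good) (hV : Val D X Y) {i j : ℕ} (hi : i < D.N) (hj : j < D.N)
    (h : D.rho j ≤ i) : sel D X Y (bo D i j) = (X (D.rho j)).toNat := by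
  unfold bo
  split_ifs with h1
  · rw [sel_c (by omega)]
    exact (csol_port _ _ _ _ (hV.nc i hi j hj h1.1 h1.2)).2.1
  · by_cases h2 : j ≤ D.pi i
    · have h3 : D.rho j = i := by omega
      rw [sel_p1 (by omega) (by omega) h2, h3]
      exact (psol_port _ _).1
    · rw [sel_p2 (by omega) (by omega) h2]
      exact (psol_port _ _).1

theorem v_lf (hD : D.Good) (hV : Val D X Y) {i j : ℕ} (hi : i < D.N) (h : j ≤ D.pi i) :
    sel D X Y (lf D i j) = (X i).toNat := by
  have h1 := hD.pi_lt i hi
  unfold lf
  split_ifs with h0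
  · show (X (3 * (i / 3) + 1)).toNat = _
    rw [hV.x3 i hi]
  · exact v_ro hV hi (by omega) (by omega)

theorem v_tp (hD : D.Good) (hV : Val D X Y) {i j : ℕ} (hi : i < D.N) (hj : j < D.N)
    (h : D.rho j < i) : sel D X Y (tp D i j) = (X (D.rho j)).toNat :=
  v_bo hD hV (by omega) hj (by omega)

theorem v_rt (hD : D.Good) (hV : Val D X Y) {i j : ℕ} (hi : i < D.N) (h : j < D.pi i) :
    sel D X Y (rt D i j) = (Y i).toNat := by
  have h1 := hD.pi_lt i hi
  exact v_il hV hi (by omega) h

theorem v_bt (hV : Val D X Y) {i j : ℕ} (hi : i < D.N) (hj : j < D.N) (h : D.rho j ≤ i) :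
    sel D X Y (bt D i j) = (Y (D.rho j)).toNat := by
  unfold bt
  split_ifs with h0
  · show (Y (D.rho (3 * (j / 3) + 1))).toNat = _
    rw [hV.y3 j hj]
  · exact v_it hV (by omega) hj (by omega)

/-- the values of the wires give a perfect code -/
theorem perf_sel (hD : D.Good) (hV : Val D X Y) : Perf D (sel D X Y) := by
  rintro ⟨i, j, t⟩ hok
  have ht := ok_lt hok
  have h9 := hD.mod3
  dsimp only at ht
  rcases Nat.lt_or_ge t 30 with h30 | h30
  · -- crossing gadget
    have hok' := ok_cell (s := 0) hok (by omega) (by omega) (by omega)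
    simp [ok] at hok'
    obtain ⟨h1, h2, h3, h4⟩ := hok'
    have h5 := hD.rho_pi i h1
    have h6 : D.pi i = j → D.rho (D.pi i) = D.rho j := cong1 D.rho
    have hc := csol_spec (X i) (X (D.rho j)) (Y i) (Y (D.rho j)) (hV.nc i h1 j h2 h4 h3) t
      (List.mem_range.2 h30)
    have hm : ((adjl.getD t []).map (fun s => ((i, j, s) : Lb))).map (sel D X Y) =
        (adjl.getD t []).map (ind (csol (X i) (X (D.rho j)) (Y i) (Y (D.rho j)))) := by
      rw [List.map_map]
      apply List.map_congr_left
      intro s hs
      have := adjl_cell t (List.mem_range.2 (by omega)) s hs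
      exact sel_c (by omega)
    unfold nbs
    dsimp only
    rw [if_neg (by omega), if_neg (by omega)]
    split_ifs with hp
    · rw [List.map_cons, List.sum_cons, hm]
      have ht' : t = 7 ∨ t = 19 ∨ t = 28 ∨ t = 29 := by
        unfold isPort at hp
        simp only [Bool.or_eq_true, decide_eq_true_eq] at hp
        omega
      rcases ht' with rfl | rfl | rfl | rfl
      · have e : sel D X Y (ext D i j 7) = (Y i).toNat := v_rt hD hV h1 (by omega)
        rw [e]
        exact hc
      · have e : sel D X Y (ext D i j 19) = (Y (D.rho j)).toNat := v_bt hV h1 h2 (by omega)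
        rw [e]
        exact hc
      · have e : sel D X Y (ext D i j 28) = (X i).toNat := v_lf hD hV h1 h3
        rw [e]
        exact hc
      · have e : sel D X Y (ext D i j 29) = (X (D.rho j)).toNat := v_tp hD hV h1 h2 h4
        rw [e]
        exact hc
    · rw [hm]
      have e : outv (X i) (X (D.rho j)) (Y i) (Y (D.rho j)) t = 0 := by
        unfold isPort at hp
        simp only [Bool.or_eq_true, decide_eq_true_eq] at hp
        unfold outv
        rw [if_neg (by omega), if_neg (by omega), if_neg (by omega), if_neg (by omega)]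
      rw [e, Nat.zero_add] at hc
      exact hc
  · rcases Nat.lt_or_ge t 42 with h42 | h42
    · -- wire gadget
      have hok' := ok_cell (s := 30) hok (by omega) (by omega) (by omega)
      simp [ok] at hok'
      obtain ⟨h1, h2, h3⟩ := hok'
      have h5 := hD.rho_pi i h1
      have h6 : D.pi i = j → D.rho (D.pi i) = D.rho j := cong1 D.rho
      have h7 := hD.pi_rho j h2
      have h8 : D.rho j = i → D.pi (D.rho j) = D.pi i := cong1 D.pi
      have key : ∀ x q : Bool,
          (∀ s, 30 ≤ s → s < 42 → sel D X Y (i, j, s) = ind (psol x q) s) →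
          sel D X Y (ext D i j 33) = q.toNat → sel D X Y (ext D i j 40) = x.toNat →
          ((nbs D (i, j, t)).map (sel D X Y)).sum = 1 := by
        intro x q k1 k2 k3
        have hc := psol_spec x q t (List.mem_range.2 h42) h30
        have hm : ((adjl.getD t []).map (fun s => ((i, j, s) : Lb))).map (sel D X Y) =
            (adjl.getD t []).map (ind (psol x q)) := by
          rw [List.map_map]
          apply List.map_congr_left
          intro s hs
          have := adjl_cell t (List.mem_range.2 (by omega)) s hs
          exact k1 s (by omega) (by omega)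
        unfold nbs
        dsimp only
        rw [if_neg (by omega), if_neg (by omega)]
        split_ifs with hp
        · rw [List.map_cons, List.sum_cons, hm]
          have ht' : t = 33 ∨ t = 40 := by
            unfold isPort at hp
            simp only [Bool.or_eq_true, decide_eq_true_eq] at hp
            omega
          rcases ht' with rfl | rfl
          · rw [k2]
            exact hc
          · rw [k3]
            exact hc
        · rw [hm]
          have e : (if t = 33 then q.toNat else if t = 40 then x.toNat else 0) = 0 := by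
            unfold isPort at hp
            simp only [Bool.or_eq_true, decide_eq_true_eq] at hp
            rw [if_neg (by omega), if_neg (by omega)]
          rw [e, Nat.zero_add] at hc
          exact hc
      have e33 : ext D i j 33 = if j < D.pi i then rt D i j else bt D i j := rfl
      have e40 : ext D i j 40 = if j ≤ D.pi i then lf D i j else tp D i j := rfl
      by_cases hh : j ≤ D.pi i
      · refine key (X i) (Y i) (fun s hs hs' => sel_p1 hs hs' hh) ?_ ?_
        · rw [e33]
          split_ifs with h10
          · exact v_rt hD hV h1 h10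
          · have h11 : D.rho j = i := by omega
            rw [v_bt hV h1 h2 (by omega), h11]
        · rw [e40, if_pos hh]
          exact v_lf hD hV h1 hh
      · refine key (X (D.rho j)) (Y (D.rho j)) (fun s hs hs' => sel_p2 hs hs' hh) ?_ ?_
        · rw [e33, if_neg (by omega)]
          exact v_bt hV h1 h2 (by omega)
        · rw [e40, if_neg hh]
          exact v_tp hD hV h1 h2 (by omega)
    · obtain rfl | rfl : t = 42 ∨ t = 43 := by omega
      · simp [ok] at hok
        obtain ⟨rfl, h1, h2⟩ := hok
        obtain ⟨a, rfl⟩ : ∃ a, i = 3 * a + 1 := ⟨i / 3, by omega⟩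
        have h3 := hV.ya a (by omega)
        show ([il D (3 * a + 1 - 1) 0, il D (3 * a + 1) 0, il D (3 * a + 1 + 1) 0].map
          (sel D X Y)).sum = 1
        simp only [List.map_cons, List.map_nil, List.sum_cons, List.sum_nil]
        rw [v_il hV (by omega) (by omega) (Nat.zero_le _),
          v_il hV (by omega) (by omega) (Nat.zero_le _),
          v_il hV (by omega) (by omega) (Nat.zero_le _)]
        rw [show 3 * a + 1 - 1 = 3 * a by omega, show 3 * a + 1 + 1 = 3 * a + 2 by omega]
        omega
      · simp [ok] at hok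
        obtain ⟨h1, h2, h3⟩ := hok
        obtain ⟨b, rfl⟩ : ∃ b, j = 3 * b + 1 := ⟨j / 3, by omega⟩
        have h4 := hV.xb b (by omega)
        have r0 := hD.rho_lt (3 * b) (by omega)
        have r1 := hD.rho_lt (3 * b + 1) (by omega)
        have r2 := hD.rho_lt (3 * b + 2) (by omega)
        show ([bo D i (3 * b + 1 - 1), bo D i (3 * b + 1), bo D i (3 * b + 1 + 1)].map
          (sel D X Y)).sum = 1
        rw [show 3 * b + 1 - 1 = 3 * b by omega, show 3 * b + 1 + 1 = 3 * b + 2 by omega]
        simp only [List.map_cons, List.map_nil, List.sum_cons, List.sum_nil]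
        rw [v_bo hD hV (by omega) (by omega) (by omega), v_bo hD hV (by omega) (by omega) (by omega),
          v_bo hD hV (by omega) (by omega) (by omega)]
        omega

end Pool.Agent.J4.H63.OP
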