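import Mathlib

/-!
# Open packings
-/

set_option autoImplicit false

namespace Pool.Agent.J4.H63.OP

/-- `S` is an open packing of `G`: the open neighbourhoods of the vertices of `S` are pairwise
disjoint. -/
def IsOpenPacking {V : Type} (G : SimpleGraph V) (S : Finset V) : Prop :=
  ∀ u ∈ S, ∀ v ∈ S, u ≠ v → Disjoint (G.neighborSet u) (G.neighborSet v)

/-- Every vertex has degree exactly `3`. -/
def IsCubic {V : Type} (G : SimpleGraph V) : Prop := ∀ v, (G.neighborSet v).ncard = 3

theorem pack_iff {V : Type} [Fintype V] [DecidableEq V] (G : SimpleGraph V) [DecidableRel G.Adj]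
    (S : Finset V) : IsOpenPacking G S ↔ ∀ v, (S.filter (G.Adj v)).card ≤ 1 := by
  constructor
  · intro h v
    rw [Finset.card_le_one]
    intro a ha b hb
    rw [Finset.mem_filter] at ha hb
    by_contra hab
    exact Set.disjoint_left.1 (h a ha.1 b hb.1 hab) ha.2.symm hb.2.symm
  · intro h a ha b hb hab
    rw [Set.disjoint_left]
    intro v hv hv'
    exact hab (Finset.card_le_one.1 (h v) a (Finset.mem_filter.2 ⟨ha, hv.symm⟩) b
      (Finset.mem_filter.2 ⟨hb, hv'.symm⟩))

theorem sum_cubic {V : Type} [Fintype V] [DecidableEq V] (G : SimpleGraph V)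
    [DecidableRel G.Adj] (h3 : IsCubic G) (S : Finset V) :
    ∑ v, (S.filter (G.Adj v)).card = 3 * S.card := by
  have h1 : ∀ v, (S.filter (G.Adj v)).card = ∑ u ∈ S, if G.Adj v u then 1 else 0 := by
    intro v
    rw [Finset.card_filter]
  simp only [h1]
  rw [Finset.sum_comm]
  have h2 : ∀ u ∈ S, (∑ v, if G.Adj v u then 1 else 0) = 3 := by
    intro u _
    rw [← Finset.card_filter, ← h3 u, Set.ncard_eq_toFinset_card']
    congr 1
    ext v
    simp [G.adj_comm]
  rw [Finset.sum_congr rfl h2, Finset.sum_const, smul_eq_mul, mul_comm]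

/-- large open packings of cubic graphs are perfect -/
theorem pack_perfect {V : Type} [Fintype V] [DecidableEq V] (G : SimpleGraph V)
    [DecidableRel G.Adj] (h3 : IsCubic G) (S : Finset V) :
    (IsOpenPacking G S ∧ (Fintype.card V + 2) / 3 ≤ S.card) ↔
      ∀ v, (S.filter (G.Adj v)).card = 1 := by
  have hs := sum_cubic G h3 S
  constructor
  · rintro ⟨h1, h2⟩
    rw [pack_iff] at h1
    by_contra hc
    push Not at hc
    obtain ⟨v, hv⟩ := hc
    have h4 : ∑ v, (S.filter (G.Adj v)).card < ∑ v : V, 1 :=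
      Finset.sum_lt_sum (fun v _ => h1 v) ⟨v, Finset.mem_univ _, lt_of_le_of_ne (h1 v) hv⟩
    simp only [Finset.sum_const, smul_eq_mul, mul_one, Finset.card_univ] at h4
    omega
  · intro h
    refine ⟨(pack_iff G S).2 fun v => (h v).le, ?_⟩
    have h4 : ∑ v, (S.filter (G.Adj v)).card = ∑ v : V, 1 := Finset.sum_congr rfl fun v _ => h v
    simp only [Finset.sum_const, smul_eq_mul, mul_one, Finset.card_univ] at h4
    omega

end Pool.Agent.J4.H63.OP
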