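import Pool.Agent.J4.H63.OP.Ports

/-!
# The graph is cubic and bipartite
-/

set_option autoImplicit false

namespace Pool.Agent.J4.H63.OP

variable {D : Net}

theorem adjl_nodup : ∀ t ∈ List.range 42, (adjl.getD t []).Nodup ∧
    (adjl.getD t []).length = if isPort t = true then 2 else 3 := by decide +kernel

theorem ext_ne {i j t : ℕ} (hok : ok D (i, j, t)) (ht : isPort t = true) (s : ℕ) (hs : s < 42) :
    ext D i j t ≠ (i, j, s) := by
  have hlf : lf D i j ≠ (i, j, s) := by
    unfold lf ro
    split_ifs <;> simp only [ne_eq, Prod.mk.injEq] <;> omega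
  have hrt : rt D i j ≠ (i, j, s) := by
    unfold rt il
    simp only [ne_eq, Prod.mk.injEq]
    omega
  have hbt : bt D i j ≠ (i, j, s) := by
    unfold bt it
    split_ifs <;> simp only [ne_eq, Prod.mk.injEq] <;> omega
  have htp : D.rho j < i → tp D i j ≠ (i, j, s) := by
    intro h
    unfold tp bo
    simp only [ne_eq, Prod.mk.injEq]
    omega
  have ht' : t = 7 ∨ t = 19 ∨ t = 28 ∨ t = 29 ∨ t = 33 ∨ t = 40 := by
    unfold isPort at ht
    simpa [or_assoc] using ht
  rcases ht' with rfl | rfl | rfl | rfl | rfl | rfl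
  · exact hrt
  · exact hbt
  · exact hlf
  · simp [ok] at hok
    exact htp (by omega)
  · show (if j < D.pi i then rt D i j else bt D i j) ≠ _
    split_ifs
    · exact hrt
    · exact hbt
  · simp [ok] at hok
    show (if j ≤ D.pi i then lf D i j else tp D i j) ≠ _
    split_ifs
    · exact hlf
    · exact htp (by omega)

theorem nbs_nodup {v : Lb} (hok : ok D v) : (nbs D v).Nodup := by
  obtain ⟨i, j, t⟩ := v
  have ht := ok_lt hok
  unfold nbs
  dsimp only at ht ⊢
  have hinj : Function.Injective (fun s : ℕ => ((i, j, s) : Lb)) := by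
    intro a b h
    simpa using h
  split_ifs with h42 h43 hp
  · subst h42
    simp [ok] at hok
    unfold il
    simp
    omega
  · subst h43
    simp [ok] at hok
    unfold bo
    simp
    omega
  · have ht' : t < 42 := by omega
    rw [List.nodup_cons]
    refine ⟨?_, (adjl_nodup t (List.mem_range.2 ht')).1.map hinj⟩
    rw [List.mem_map]
    rintro ⟨s, hs, h⟩
    exact ext_ne hok hp s (adjl_cell t (List.mem_range.2 ht') s hs).1 h.symm
  · exact (adjl_nodup t (List.mem_range.2 (by omega))).1.map hinj

theorem nbs_length {v : Lb} (hok : ok D v) : (nbs D v).length = 3 := by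
  obtain ⟨i, j, t⟩ := v
  have ht := ok_lt hok
  unfold nbs
  dsimp only at ht ⊢
  split_ifs with h42 h43 hp
  · rfl
  · rfl
  · rw [List.length_cons, List.length_map, (adjl_nodup t (List.mem_range.2 (by omega))).2,
      if_pos hp]
  · rw [List.length_map, (adjl_nodup t (List.mem_range.2 (by omega))).2, if_neg hp]

theorem nbs_ok (hD : D.Good) {v w : Lb} (hok : ok D v) (h : w ∈ nbs D v) : ok D w :=
  ((adj_nbs hD hok w).2 h).2.1

/-- the colours of the ends of an edge are different -/
theorem col_adj {v w : Lb} (h : (GG D).Adj v w) :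
    colr.getD v.2.2 0 + colr.getD w.2.2 0 = 1 := by
  obtain ⟨-, -, ⟨p, hp, h1, h2, -⟩ | ⟨p, hp, h1, h2, -⟩⟩ := h
  · rw [h1, h2]
    exact pats_col p hp
  · rw [h1, h2, add_comm]
    exact pats_col p hp

end Pool.Agent.J4.H63.OP
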