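import Mathlib

/-!
# The routing network of crossing gadgets

Labels of vertices are triples `(i, j, t)`: row, column and kind.  Kinds `0` to `29` form the
crossing gadget, kinds `30` to `41` the wire gadget, kind `42` is a vertex on the left boundary and
kind `43` a vertex on the bottom boundary.
-/

set_option autoImplicit false

namespace Pool.Agent.J4.H63.OP

/-- labels of vertices -/
abbrev Lb : Type := ℕ × ℕ × ℕ

/-- A network: `N` wires; the wire of row `i` turns down in the column `pi i`, and the wire of the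
column `j` comes from the row `rho j`. -/
structure Net where
  N : ℕ
  pi : ℕ → ℕ
  rho : ℕ → ℕ

/-- the two maps are inverse to each other on the numbers below `N` -/
structure Net.Good (D : Net) : Prop where
  pi_lt : ∀ i < D.N, D.pi i < D.N
  rho_lt : ∀ j < D.N, D.rho j < D.N
  rho_pi : ∀ i < D.N, D.rho (D.pi i) = i
  pi_rho : ∀ j < D.N, D.pi (D.rho j) = j
  mod3 : D.N % 3 = 0

/-- kinds of the ends, shift, kind of condition -/
def pats : List (ℕ × ℕ × ℕ × ℕ × ℕ) :=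
  [(0, 1, 0, 0, 0), (0, 4, 0, 0, 0), (0, 6, 0, 0, 0), (1, 2, 0, 0, 0), (1, 3, 0, 0, 0),
    (2, 8, 0, 0, 0), (2, 10, 0, 0, 0), (3, 10, 0, 0, 0), (3, 4, 0, 0, 0), (4, 5, 0, 0, 0),
    (5, 11, 0, 0, 0), (5, 6, 0, 0, 0), (6, 7, 0, 0, 0), (7, 8, 0, 0, 0), (8, 9, 0, 0, 0),
    (9, 18, 0, 0, 0), (9, 10, 0, 0, 0), (11, 12, 0, 0, 0), (11, 13, 0, 0, 0), (12, 16, 0, 0, 0),
    (12, 14, 0, 0, 0), (13, 14, 0, 0, 0), (13, 29, 0, 0, 0), (14, 15, 0, 0, 0), (15, 16, 0, 0, 0),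
    (15, 22, 0, 0, 0), (16, 17, 0, 0, 0), (17, 18, 0, 0, 0), (17, 20, 0, 0, 0), (18, 19, 0, 0, 0),
    (19, 20, 0, 0, 0), (20, 21, 0, 0, 0), (21, 24, 0, 0, 0), (21, 22, 0, 0, 0), (22, 23, 0, 0, 0),
    (23, 24, 0, 0, 0), (23, 26, 0, 0, 0), (24, 25, 0, 0, 0), (25, 28, 0, 0, 0), (25, 26, 0, 0, 0),
    (26, 27, 0, 0, 0), (27, 28, 0, 0, 0), (27, 29, 0, 0, 0), (30, 36, 0, 0, 0), (30, 34, 0, 0, 0),
    (30, 31, 0, 0, 0), (31, 33, 0, 0, 0), (31, 32, 0, 0, 0), (32, 40, 0, 0, 0), (32, 38, 0, 0, 0),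
    (33, 34, 0, 0, 0), (34, 35, 0, 0, 0), (35, 36, 0, 0, 0), (35, 41, 0, 0, 0), (36, 37, 0, 0, 0),
    (37, 38, 0, 0, 0), (37, 41, 0, 0, 0), (38, 39, 0, 0, 0), (39, 40, 0, 0, 0), (39, 41, 0, 0, 0),
    (7, 28, 0, 1, 1), (7, 40, 0, 1, 1), (33, 28, 0, 1, 1), (33, 40, 0, 1, 1),
    (19, 29, 1, 0, 2), (19, 40, 1, 0, 2), (33, 29, 1, 0, 2), (33, 40, 1, 0, 2),
    (28, 42, 1, 0, 0), (42, 28, 0, 0, 0), (42, 28, 1, 0, 0),
    (40, 42, 1, 0, 0), (42, 40, 0, 0, 0), (42, 40, 1, 0, 0),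
    (19, 43, 0, 1, 0), (43, 19, 0, 0, 0), (43, 19, 0, 1, 0),
    (33, 43, 0, 1, 0), (43, 33, 0, 0, 0), (43, 33, 0, 1, 0)]

/-- the vertices -/
def ok (D : Net) (v : Lb) : Prop :=
  (v.2.2 < 30 ∧ v.1 < D.N ∧ v.2.1 < D.N ∧ v.2.1 ≤ D.pi v.1 ∧ D.rho v.2.1 < v.1) ∨
  (30 ≤ v.2.2 ∧ v.2.2 < 42 ∧ v.1 < D.N ∧ v.2.1 < D.N ∧
    ((v.2.1 ≤ D.pi v.1 ∧ v.1 ≤ D.rho v.2.1) ∨ (D.pi v.1 < v.2.1 ∧ D.rho v.2.1 < v.1))) ∨
  (v.2.2 = 42 ∧ v.2.1 = 0 ∧ v.1 < D.N ∧ v.1 % 3 = 1) ∨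
  (v.2.2 = 43 ∧ v.1 + 1 = D.N ∧ v.2.1 < D.N ∧ v.2.1 % 3 = 1)

/-- the condition of a kind of edges -/
def cnd (D : Net) (k : ℕ) (v : Lb) : Prop :=
  k = 0 ∨ (k = 1 ∧ v.2.1 < D.pi v.1) ∨ (k = 2 ∧ D.rho v.2.1 ≤ v.1)

/-- the edges, oriented -/
def E0 (D : Net) (v w : Lb) : Prop :=
  ∃ p ∈ pats, v.2.2 = p.1 ∧ w.2.2 = p.2.1 ∧ w.1 = v.1 + p.2.2.1 ∧ w.2.1 = v.2.1 + p.2.2.2.1 ∧
    cnd D p.2.2.2.2 v

theorem pats_ne : ∀ p ∈ pats, p.1 ≠ p.2.1 := by decide +kernel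

theorem E0_irrefl {D : Net} {v : Lb} : ¬ E0 D v v := by
  rintro ⟨p, hp, h1, h2, -⟩
  exact pats_ne p hp (h1.symm.trans h2)

/-- the graph -/
def GG (D : Net) : SimpleGraph Lb where
  Adj v w := ok D v ∧ ok D w ∧ (E0 D v w ∨ E0 D w v)
  symm := ⟨fun _ _ h => ⟨h.2.1, h.1, h.2.2.symm⟩⟩
  loopless := ⟨fun _ h => h.2.2.elim E0_irrefl E0_irrefl⟩

/-- the colours of the kinds -/
def colr : List ℕ :=
  [0, 1, 0, 0, 1, 0, 1, 0, 1, 0, 1, 1, 0, 0, 1, 0, 1, 0, 1, 0, 1, 0, 1, 0, 1, 0, 1, 0, 1, 1,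
    0, 1, 0, 0, 1, 0, 1, 0, 1, 0, 1, 1, 0, 1]

theorem pats_col : ∀ p ∈ pats, colr.getD p.1 0 + colr.getD p.2.1 0 = 1 := by decide +kernel

/-- the neighbours inside the cell -/
def adjl : List (List ℕ) :=
  [[1, 4, 6], [0, 2, 3], [1, 8, 10], [1, 4, 10], [0, 3, 5], [4, 6, 11], [0, 5, 7], [6, 8],
    [2, 7, 9], [8, 10, 18], [2, 3, 9], [5, 12, 13], [11, 14, 16], [11, 14, 29], [12, 13, 15],
    [14, 16, 22], [12, 15, 17], [16, 18, 20], [9, 17, 19], [18, 20], [17, 19, 21], [20, 22, 24],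
    [15, 21, 23], [22, 24, 26], [21, 23, 25], [24, 26, 28], [23, 25, 27], [26, 28, 29],
    [25, 27], [13, 27],
    [31, 34, 36], [30, 32, 33], [31, 38, 40], [31, 34], [30, 33, 35], [34, 36, 41], [30, 35, 37],
    [36, 38, 41], [32, 37, 39], [38, 40, 41], [32, 39], [35, 37, 39]]

/-- the kinds of the ports -/
def isPort (t : ℕ) : Bool :=
  decide (t = 7) || decide (t = 19) || decide (t = 28) || decide (t = 29) || decide (t = 33) ||
    decide (t = 40)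

theorem adjl_spec : ∀ t ∈ List.range 42, ∀ s ∈ List.range 42, (s ∈ adjl.getD t [] ↔
    ((t, s, 0, 0, 0) ∈ pats ∨ (s, t, 0, 0, 0) ∈ pats)) := by decide +kernel

theorem adjl_cell : ∀ t ∈ List.range 42, ∀ s ∈ adjl.getD t [], s < 42 ∧ (t < 30 ↔ s < 30) := by
  decide +kernel

theorem pats_bd : ∀ p ∈ pats, (p.2.2 = (0, 0, 0) ∧ p.1 < 42 ∧ p.2.1 < 42) ∨
   ((isPort p.1 = true ∨ 42 ≤ p.1) ∧ (isPort p.2.1 = true ∨ 42 ≤ p.2.1)) := by decide +kernel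

/-- kinds in the cell and on the wires -/
theorem adj_int {D : Net} {i j t : ℕ} (ht : t < 42) (hp : isPort t = false)
    (hok : ok D (i, j, t)) (w : Lb) :
    (GG D).Adj (i, j, t) w ↔ w ∈ (adjl.getD t []).map (fun s => (i, j, s)) := by
  obtain ⟨i', j', t'⟩ := w
  rw [List.mem_map]
  constructor
  · rintro ⟨-, -, ⟨p, hp1, h1, h2, h3, h4, -⟩ | ⟨p, hp1, h1, h2, h3, h4, -⟩⟩
    · dsimp only at h1 h2 h3 h4
      rcases pats_bd p hp1 with ⟨h5, h6, h7⟩ | ⟨h5, -⟩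
      · obtain ⟨a, b, c⟩ := p
        dsimp only at h1 h2 h3 h4 h5 h6 h7
        subst h1 h2 h5
        refine ⟨t', (adjl_spec t (List.mem_range.2 h6) t' (List.mem_range.2 h7)).2 (Or.inl hp1), ?_⟩
        simp [h3, h4]
      · rw [← h1, hp] at h5
        rcases h5 with h5 | h5
        · exact absurd h5 (by simp)
        · omega
    · dsimp only at h1 h2 h3 h4
      rcases pats_bd p hp1 with ⟨h5, h6, h7⟩ | ⟨-, h5⟩
      · obtain ⟨a, b, c⟩ := p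
        dsimp only at h1 h2 h3 h4 h5 h6 h7
        subst h1 h2 h5
        refine ⟨t', (adjl_spec t (List.mem_range.2 h7) t' (List.mem_range.2 h6)).2 (Or.inr hp1), ?_⟩
        simp [h3, h4]
      · rw [← h2, hp] at h5
        rcases h5 with h5 | h5
        · exact absurd h5 (by simp)
        · omega
  · rintro ⟨s, hs, h⟩
    simp only [Prod.mk.injEq] at h
    obtain ⟨rfl, rfl, rfl⟩ := h
    have ht' := List.mem_range.2 ht
    obtain ⟨h1, h2⟩ := adjl_cell t ht' s hs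
    refine ⟨hok, ?_, ?_⟩
    · unfold ok at hok ⊢
      dsimp only at hok ⊢
      omega
    · rcases (adjl_spec t ht' s (List.mem_range.2 h1)).1 hs with h3 | h3
      · exact Or.inl ⟨_, h3, rfl, rfl, rfl, rfl, Or.inl rfl⟩
      · exact Or.inr ⟨_, h3, rfl, rfl, rfl, rfl, Or.inl rfl⟩

/-- the left entrance of a cell -/
def il (D : Net) (i j : ℕ) : Lb := (i, j, if D.rho j < i then 28 else 40)

/-- the top entrance of a cell -/
def it (D : Net) (i j : ℕ) : Lb := (i, j, if j ≤ D.pi i then 29 else 40)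

/-- the right exit of a cell -/
def ro (D : Net) (i j : ℕ) : Lb := (i, j, if D.rho j < i then 7 else 33)

/-- the bottom exit of a cell -/
def bo (D : Net) (i j : ℕ) : Lb := (i, j, if D.rho j < i ∧ j ≤ D.pi i then 19 else 33)

/-- the vertex before the left entrance -/
def lf (D : Net) (i j : ℕ) : Lb := if j = 0 then (3 * (i / 3) + 1, 0, 42) else ro D i (j - 1)

/-- the vertex above the top entrance -/
def tp (D : Net) (i j : ℕ) : Lb := bo D (i - 1) j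

/-- the vertex after the right exit -/
def rt (D : Net) (i j : ℕ) : Lb := il D i (j + 1)

/-- the vertex below the bottom exit -/
def bt (D : Net) (i j : ℕ) : Lb :=
  if i + 1 = D.N then (i, 3 * (j / 3) + 1, 43) else it D (i + 1) j

/-- the neighbour of a port outside of its cell -/
def ext (D : Net) (i j t : ℕ) : Lb :=
  if t = 7 then rt D i j else if t = 19 then bt D i j else if t = 28 then lf D i j
  else if t = 29 then tp D i j else if t = 33 then (if j < D.pi i then rt D i j else bt D i j)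
  else (if j ≤ D.pi i then lf D i j else tp D i j)

/-- the list of the neighbours -/
def nbs (D : Net) (v : Lb) : List Lb :=
  if v.2.2 = 42 then [il D (v.1 - 1) 0, il D v.1 0, il D (v.1 + 1) 0]
  else if v.2.2 = 43 then [bo D v.1 (v.2.1 - 1), bo D v.1 v.2.1, bo D v.1 (v.2.1 + 1)]
  else if isPort v.2.2 = true then
    ext D v.1 v.2.1 v.2.2 :: (adjl.getD v.2.2 []).map (fun s => (v.1, v.2.1, s))
  else (adjl.getD v.2.2 []).map (fun s => (v.1, v.2.1, s))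

theorem adj_iff' {D : Net} {i j t i' j' t' : ℕ} : (GG D).Adj (i, j, t) (i', j', t') ↔
    ok D (i, j, t) ∧ ok D (i', j', t') ∧
    ((∃ p ∈ pats, t = p.1 ∧ t' = p.2.1 ∧ i' = i + p.2.2.1 ∧ j' = j + p.2.2.2.1 ∧
      cnd D p.2.2.2.2 (i, j, t)) ∨
    (∃ p ∈ pats, t' = p.1 ∧ t = p.2.1 ∧ i = i' + p.2.2.1 ∧ j = j' + p.2.2.2.1 ∧
      cnd D p.2.2.2.2 (i', j', t'))) := Iff.rfl

theorem eq_il {D : Net} {i j i' j' t' : ℕ} : (i', j', t') = il D i j ↔ i' = i ∧ j' = j ∧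
    ((D.rho j < i ∧ t' = 28) ∨ (i ≤ D.rho j ∧ t' = 40)) := by
  unfold il
  split_ifs <;> simp only [Prod.mk.injEq] <;> omega

theorem eq_it {D : Net} {i j i' j' t' : ℕ} : (i', j', t') = it D i j ↔ i' = i ∧ j' = j ∧
    ((j ≤ D.pi i ∧ t' = 29) ∨ (D.pi i < j ∧ t' = 40)) := by
  unfold it
  split_ifs <;> simp only [Prod.mk.injEq] <;> omega

theorem eq_ro {D : Net} {i j i' j' t' : ℕ} : (i', j', t') = ro D i j ↔ i' = i ∧ j' = j ∧
    ((D.rho j < i ∧ t' = 7) ∨ (i ≤ D.rho j ∧ t' = 33)) := by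
  unfold ro
  split_ifs <;> simp only [Prod.mk.injEq] <;> omega

theorem eq_bo {D : Net} {i j i' j' t' : ℕ} : (i', j', t') = bo D i j ↔ i' = i ∧ j' = j ∧
    ((D.rho j < i ∧ j ≤ D.pi i ∧ t' = 19) ∨ ((i ≤ D.rho j ∨ D.pi i < j) ∧ t' = 33)) := by
  unfold bo
  split_ifs <;> simp only [Prod.mk.injEq] <;> omega

theorem cong1 (f : ℕ → ℕ) {a b : ℕ} : a = b → f a = f b := fun h => by rw [h]

end Pool.Agent.J4.H63.OP
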