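import Pool.Agent.J4.H63.OP.Defs
import Pool.Agent.H671R2.GraphEnc
import Pool.Agent.H671R2.PolyAuto
import Pool.Agent.H671R2.OrdNP2

/-!
# Open packing is in `NP`

The certificate is the indicator function of the open packing.
-/

set_option autoImplicit false

namespace Pool.Agent.J4.H63.OP

open Pool.Agent.NPC Pool.Agent.NPC.R671 Pool.Agent.H671R2.Ord

/-- The decision problem open packing: given the adjacency matrix of a graph `G` and a positive
integer `k`, is there an open packing of `G` with at least `k` vertices? -/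
def OpenPacking (p : List (List Bool) × ℕ) : Prop :=
  1 ≤ p.2 ∧ ∃ (n : ℕ) (G : SimpleGraph (Fin n)), adjMatrix G = p.1 ∧
    ∃ S : Finset (Fin n), IsOpenPacking G S ∧ p.2 ≤ S.card

/-- the condition on the certificate -/
def chkP (M : List (List Bool)) (l : List ℕ) : Bool :=
  (List.range M.length).all (fun i => (List.range M.length).all (fun j =>
    (List.range M.length).all (fun k =>
      !((me M i k && me M j k) && (decide (l.getD i 0 = 1) && decide (l.getD j 0 = 1))) ||
        decide (i = j))))

/-- the verifier -/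
def Rp (x : (List (List Bool) × ℕ) × List ℕ) : Bool :=
  wf x.1.1 && (decide (1 ≤ x.1.2) && (decide (x.2.length = x.1.1.length) &&
    (x.2.all (fun a => decide (a ≤ 1)) && (chkP x.1.1 x.2 && decide (x.1.2 ≤ x.2.sum)))))

theorem chkP_iff {n : ℕ} (G : SimpleGraph (Fin n)) (f : Fin n → ℕ) :
    chkP (adjMatrix G) (List.ofFn f) = true ↔
      IsOpenPacking G (Finset.univ.filter (fun i => f i = 1)) := by
  have hf : ∀ i : Fin n, (List.ofFn f).getD i 0 = f i := by
    intro i
    rw [List.getD_eq_getElem?_getD, List.getElem?_eq_getElem (by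
      rw [List.length_ofFn]; exact i.isLt), List.getElem_ofFn]
    rfl
  simp only [chkP, length_adjMatrix, List.all_eq_true, List.mem_range, Bool.or_eq_true,
    Bool.not_eq_true', Bool.and_eq_false_iff, decide_eq_true_eq, decide_eq_false_iff_not]
  constructor
  · intro h u hu v hv huv
    rw [Finset.mem_filter] at hu hv
    rw [Set.disjoint_left]
    intro w hw hw'
    have h1 := h u u.isLt v v.isLt w w.isLt
    rw [hf u, hf v, (me_adj G u w).2 hw, (me_adj G v w).2 hw'] at h1
    rcases h1 with (h1 | h1) | h1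
    · rcases h1 with h1 | h1 <;> exact absurd h1 (by simp)
    · rcases h1 with h1 | h1
      · exact h1 hu.2
      · exact h1 hv.2
    · exact huv (Fin.ext h1)
  · intro h i hi j hj k hk
    by_cases hij : i = j
    · exact Or.inr hij
    · left
      by_contra hc
      push Not at hc
      obtain ⟨⟨c1, c2⟩, c3, c4⟩ := hc
      have hfi := hf ⟨i, hi⟩
      have hfj := hf ⟨j, hj⟩
      simp only at hfi hfj
      rw [hfi] at c3
      rw [hfj] at c4
      have m1 := (me_adj G ⟨i, hi⟩ ⟨k, hk⟩).1 (by simpa using c1)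
      have m2 := (me_adj G ⟨j, hj⟩ ⟨k, hk⟩).1 (by simpa using c2)
      exact Set.disjoint_left.1 (h ⟨i, hi⟩ (Finset.mem_filter.2 ⟨Finset.mem_univ _, c3⟩) ⟨j, hj⟩
        (Finset.mem_filter.2 ⟨Finset.mem_univ _, c4⟩) (fun h => hij (congrArg Fin.val h))) m1 m2

theorem sum_ind {n : ℕ} (f : Fin n → ℕ) (hf : ∀ i, f i ≤ 1) :
    (List.ofFn f).sum = (Finset.univ.filter (fun i => f i = 1)).card := by
  rw [List.sum_ofFn, Finset.card_filter]
  refine Finset.sum_congr rfl fun i _ => ?_
  have := hf i
  split_ifs <;> omega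

theorem cert_iff (p : List (List Bool) × ℕ) : OpenPacking p ↔ ∃ w : List ℕ, Rp (p, w) = true := by
  obtain ⟨M, k⟩ := p
  constructor
  · rintro ⟨hk, n, G, hG, S, hS, hkS⟩
    dsimp only at hG
    subst hG
    have e : Finset.univ.filter (fun i : Fin n => (if i ∈ S then 1 else 0) = 1) = S := by
      ext i
      simp
    refine ⟨List.ofFn (fun i : Fin n => if i ∈ S then 1 else 0), ?_⟩
    simp only [Rp, Bool.and_eq_true, decide_eq_true_eq]
    refine ⟨(wf_iff _).2 ⟨n, G, rfl⟩, hk, ?_, ?_, ?_, ?_⟩
    · simp [length_adjMatrix]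
    · rw [List.all_eq_true]
      intro a ha
      rw [List.mem_ofFn] at ha
      obtain ⟨i, rfl⟩ := ha
      simp only [decide_eq_true_eq]
      split_ifs <;> omega
    · rw [chkP_iff, e]
      exact hS
    · rw [sum_ind _ (fun i => by split_ifs <;> omega), e]
      exact hkS
  · rintro ⟨w, hw⟩
    simp only [Rp, Bool.and_eq_true, decide_eq_true_eq, List.all_eq_true] at hw
    obtain ⟨h1, h2, h3, h4, h5, h6⟩ := hw
    obtain ⟨n, G, rfl⟩ := (wf_iff M).1 h1
    rw [length_adjMatrix] at h3
    subst h3
    have hw : List.ofFn (fun i : Fin w.length => w[i]) = w := by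
      apply List.ext_getElem
      · simp
      · intro i hi hi'
        simp
    have hle : ∀ i : Fin w.length, w[i] ≤ 1 := fun i => h4 _ (List.getElem_mem _)
    have h5' : chkP (adjMatrix G) (List.ofFn (fun i : Fin w.length => w[i])) = true := by
      rw [hw]
      exact h5
    have h6' : k ≤ (List.ofFn (fun i : Fin w.length => w[i])).sum := by
      rw [hw]
      exact h6
    rw [chkP_iff] at h5'
    rw [sum_ind _ hle] at h6'
    exact ⟨h2, w.length, G, rfl, _, h5', h6'⟩

attribute [local irreducible] me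

attribute [local fun_prop] me_poly

theorem all3_poly {α : Type} [TEnc α] {m : α → ℕ} (hm : UPoly m) {F : α → ℕ → ℕ → ℕ → Bool}
    (hF : Poly (fun x : ((α × ℕ) × ℕ) × ℕ => F x.1.1.1 x.1.1.2 x.1.2 x.2)) :
    Poly (fun a => (List.range (m a)).all (fun i => (List.range (m a)).all (fun j =>
      (List.range (m a)).all (fun k => F a i j k)))) := by
  refine NPC.Poly.all (l := fun a => List.range (m a))
    (p := fun a i => (List.range (m a)).all (fun j => (List.range (m a)).all (F a i j)))
    hm.range ?_
  refine NPC.Poly.all (l := fun x : α × ℕ => List.range (m x.1))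
    (p := fun x j => (List.range (m x.1)).all (F x.1 x.2 j))
    (hm.range.comp (NPC.Poly.fst NPC.Poly.id)) ?_
  exact NPC.Poly.all (l := fun x : (α × ℕ) × ℕ => List.range (m x.1.1))
    (p := fun x k => F x.1.1 x.1.2 x.2 k)
    (hm.range.comp (NPC.Poly.fst (NPC.Poly.fst NPC.Poly.id))) hF

theorem chkP_poly : Poly (fun x : List (List Bool) × List ℕ => chkP x.1 x.2) := by
  unfold chkP
  refine all3_poly (α := List (List Bool) × List ℕ) (m := fun x => x.1.length)
    (UPoly.length (by fun_prop)) (F := fun x i j k =>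
      !((me x.1 i k && me x.1 j k) && (decide (x.2.getD i 0 = 1) && decide (x.2.getD j 0 = 1))) ||
        decide (i = j)) ?_
  fun_prop

theorem Rp_poly : Poly Rp := by
  unfold Rp
  have h1 : Poly (fun x : (List (List Bool) × ℕ) × List ℕ => wf x.1.1) :=
    wf_poly.comp (by fun_prop)
  have h2 : Poly (fun x : (List (List Bool) × ℕ) × List ℕ => chkP x.1.1 x.2) :=
    chkP_poly.comp (f := fun x : (List (List Bool) × ℕ) × List ℕ => (x.1.1, x.2)) (by fun_prop)
  fun_prop

/-- certificates are short -/
theorem Rp_short {p : List (List Bool) × ℕ} {w : List ℕ} (h : Rp (p, w) = true) :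
    sz w ≤ (4 * Polynomial.X ^ 2 + 20 * Polynomial.X + 20 : Polynomial ℕ).eval (sz p) := by
  simp only [Rp, Bool.and_eq_true, decide_eq_true_eq, List.all_eq_true] at h
  obtain ⟨_, _, h4, hlt, _⟩ := h
  have hsz : ∀ a ∈ w, sz a ≤ 8 := by
    intro a ha
    have h1 := sz_nat_le a
    have h2 := Poly.size_le_self a
    have h3 := hlt a ha
    omega
  have h5 := sz_le_length_mul w _ hsz
  have h1 : p.1.length ≤ sz p.1 := (length_lt_sz p.1).le
  have h6 : sz p.1 ≤ sz p := by
    obtain ⟨a, b⟩ := p
    rw [sz_pair]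
    dsimp only
    omega
  simp only [Polynomial.eval_add, Polynomial.eval_mul, Polynomial.eval_pow, Polynomial.eval_X,
    Polynomial.eval_ofNat]
  rw [h4] at h5
  nlinarith

/-- Open packing is in `NP`. -/
theorem inNPP_openPacking : InNPP OpenPacking := by
  refine inNPP_of (R := Rp) Rp_poly (4 * Polynomial.X ^ 2 + 20 * Polynomial.X + 20) ?_
  intro M
  rw [cert_iff]
  exact exists_congr fun w => ⟨fun h => ⟨Rp_short h, h⟩, fun h => h.2⟩

end Pool.Agent.J4.H63.OP
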