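import Pool.Agent.J4.H63.OP.Wires

/-!
# The network of an instance
-/

set_option autoImplicit false

namespace Pool.Agent.J4.H63.OP

open Pool.Agent.NPC Pool.Agent.R544 Pool.Agent.H958R2

open Classical in
/-- the row of the wire of the column `j` -/
noncomputable def rhof (φ : N3) (j : ℕ) : ℕ :=
  if h : ∃ i, i < 36 * φ.length ∧ pif φ i = j then h.choose else 0

/-- the network -/
noncomputable def net (φ : N3) : Net := ⟨36 * φ.length, pif φ, rhof φ⟩

theorem rhof_eq {φ : N3} {i j : ℕ} (hi : i < 36 * φ.length) (h : pif φ i = j) :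
    rhof φ j = i := by
  have h1 : ∃ i, i < 36 * φ.length ∧ pif φ i = j := ⟨i, hi, h⟩
  unfold rhof
  rw [dif_pos h1]
  obtain ⟨h2, h3⟩ := h1.choose_spec
  exact pif_inj h2 hi (h3.trans h.symm)

theorem pif_surj {φ : N3} {j : ℕ} (hj : j < 36 * φ.length) :
    ∃ i, i < 36 * φ.length ∧ pif φ i = j := by
  have h : Function.Injective (fun i : Fin (36 * φ.length) =>
      (⟨pif φ i, pif_lt i.isLt⟩ : Fin (36 * φ.length))) := by
    intro a b hab
    exact Fin.ext (pif_inj a.isLt b.isLt (congrArg Fin.val hab))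
  obtain ⟨i, hi⟩ := (Finite.injective_iff_surjective.1 h) ⟨j, hj⟩
  exact ⟨i, i.isLt, congrArg Fin.val hi⟩

theorem rhof_spec {φ : N3} {j : ℕ} (hj : j < 36 * φ.length) :
    rhof φ j < 36 * φ.length ∧ pif φ (rhof φ j) = j := by
  obtain ⟨i, hi, h⟩ := pif_surj hj
  rw [rhof_eq hi h]
  exact ⟨hi, h⟩

theorem net_good (φ : N3) : (net φ).Good where
  pi_lt i hi := pif_lt hi
  rho_lt j hj := (rhof_spec hj).1
  rho_pi i hi := rhof_eq hi rfl
  pi_rho j hj := (rhof_spec hj).2
  mod3 := by
    show (36 * φ.length) % 3 = 0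
    omega

/-! ### The rows of the columns -/

theorem rho_a {φ : N3} {a : ℕ} (ha : a < 12 * φ.length) :
    rhof φ (12 * φ.length - 1 - a) = 3 * a := by
  refine rhof_eq (by omega) ?_
  unfold pif
  rw [if_pos (by omega)]
  omega

theorem rho_b0 {φ : N3} {o : ℕ} (ho : o < oc φ) :
    rhof φ (12 * φ.length + 3 * nx φ o) = 9 * o + 1 := by
  unfold oc at ho
  refine rhof_eq (by omega) ?_
  unfold pif
  rw [if_neg (by omega), if_pos (by omega), if_pos (by omega),
    show (9 * o + 1) / 9 = o by omega]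

theorem rho_b1 {φ : N3} {o : ℕ} (ho : o < oc φ) :
    rhof φ (12 * φ.length + 3 * nx φ o + 1) = 9 * o + 4 := by
  unfold oc at ho
  refine rhof_eq (by omega) ?_
  unfold pif
  rw [if_neg (by omega), if_pos (by omega), if_neg (by omega), if_neg (by omega),
    if_pos (by omega), show (9 * o + 4) / 9 = o by omega]

theorem rho_b2 {φ : N3} {o : ℕ} (ho : o < oc φ) :
    rhof φ (12 * φ.length + 3 * o + 2) = 27 * φ.length + 3 * o + 1 := by
  unfold oc at ho
  refine rhof_eq (by omega) ?_
  unfold pif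
  rw [if_neg (by omega), if_neg (by omega), if_pos (by omega)]
  omega

theorem rho_c0 {φ : N3} {o : ℕ} (ho : o < oc φ) :
    rhof φ (21 * φ.length + 3 * nx φ o) = 9 * o + 2 := by
  unfold oc at ho
  refine rhof_eq (by omega) ?_
  unfold pif
  rw [if_neg (by omega), if_pos (by omega), if_neg (by omega), if_pos (by omega),
    show (9 * o + 2) / 9 = o by omega]

theorem rho_c1 {φ : N3} {o : ℕ} (ho : o < oc φ) :
    rhof φ (21 * φ.length + 3 * nx φ o + 1) = 9 * o + 5 := by
  unfold oc at ho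
  refine rhof_eq (by omega) ?_
  unfold pif
  rw [if_neg (by omega), if_pos (by omega), if_neg (by omega), if_neg (by omega),
    if_neg (by omega), if_pos (by omega), show (9 * o + 5) / 9 = o by omega]

theorem rho_c2 {φ : N3} {o : ℕ} (ho : o < oc φ) :
    rhof φ (21 * φ.length + 3 * o + 2) = 9 * o + 7 := by
  unfold oc at ho
  refine rhof_eq (by omega) ?_
  unfold pif
  rw [if_neg (by omega), if_pos (by omega), if_neg (by omega), if_neg (by omega),
    if_neg (by omega), if_neg (by omega), if_pos (by omega), show (9 * o + 7) / 9 = o by omega]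

theorem rho_d {φ : N3} {o : ℕ} (ho : o < oc φ) :
    rhof φ (30 * φ.length + o) = 27 * φ.length + 3 * o + 2 := by
  unfold oc at ho
  refine rhof_eq (by omega) ?_
  unfold pif
  rw [if_neg (by omega), if_neg (by omega), if_neg (by omega)]
  omega

theorem rho_e {φ : N3} {o : ℕ} (ho : o < oc φ) :
    rhof φ (33 * φ.length + o) = 9 * o + 8 := by
  unfold oc at ho
  refine rhof_eq (by omega) ?_
  unfold pif
  rw [if_neg (by omega), if_pos (by omega), if_neg (by omega), if_neg (by omega),
    if_neg (by omega), if_neg (by omega), if_neg (by omega), show (9 * o + 8) / 9 = o by omega]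

theorem nx_surj {φ : N3} {c : ℕ} (hc : c < oc φ) : ∃ o < oc φ, nx φ o = c := by
  have h : Function.Injective (fun o : Fin (oc φ) =>
      (⟨nx φ o, (nx_spec o.isLt).1⟩ : Fin (oc φ))) := by
    intro a b hab
    exact Fin.ext (nx_inj a.isLt b.isLt (congrArg Fin.val hab))
  obtain ⟨i, hi⟩ := (Finite.injective_iff_surjective.1 h) ⟨c, hc⟩
  exact ⟨i, i.isLt, congrArg Fin.val hi⟩

theorem one3_sum : ∀ a b c : Bool, one3 a b c = true ↔ a.toNat + b.toNat + c.toNat = 1 := by
  decide

/-- from a perfect code to an assignment -/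
theorem sat_of_perf {φ : N3} {s : Lb → ℕ} (hs : Perf (net φ) s) : P13 φ := by
  classical
  have hD := net_good φ
  set x : ℕ → ℕ := fun a => s (3 * a + 1, 0, 42) with hx
  have hv : ∀ i, val s i = x (i / 3) := fun i => rfl
  have hb : ∀ b, 3 * b < 36 * φ.length → x (rhof φ (3 * b) / 3) + x (rhof φ (3 * b + 1) / 3) +
      x (rhof φ (3 * b + 2) / 3) = 1 := fun b hb => bottom_val hD hs hb
  have h1 : ∀ o < oc φ, x (3 * o) + x (3 * o + 1) + x (3 * o + 2) = 1 := by
    intro o ho
    unfold oc at ho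
    have h := hb (4 * φ.length - 1 - o) (by omega)
    have r0 := rho_a (φ := φ) (a := 3 * o + 2) (by omega)
    have r1 := rho_a (φ := φ) (a := 3 * o + 1) (by omega)
    have r2 := rho_a (φ := φ) (a := 3 * o) (by omega)
    rw [show 3 * (4 * φ.length - 1 - o) = 12 * φ.length - 1 - (3 * o + 2) by omega, r0,
      show 12 * φ.length - 1 - (3 * o + 2) + 1 = 12 * φ.length - 1 - (3 * o + 1) by omega, r1,
      show 12 * φ.length - 1 - (3 * o + 2) + 2 = 12 * φ.length - 1 - 3 * o by omega, r2,
      show 3 * (3 * o + 2) / 3 = 3 * o + 2 by omega, show 3 * (3 * o + 1) / 3 = 3 * o + 1 by omega,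
      show 3 * (3 * o) / 3 = 3 * o by omega] at h
    omega
  have h3 : ∀ o < oc φ, x (3 * o) + x (3 * o + 1) + x (3 * nx φ o + 2) = 1 := by
    intro o ho
    have hn := (nx_spec ho).1
    have r0 := rho_c0 ho
    have r1 := rho_c1 ho
    have r2 := rho_c2 hn
    unfold oc at ho hn
    have h := hb (7 * φ.length + nx φ o) (by omega)
    rw [show 3 * (7 * φ.length + nx φ o) = 21 * φ.length + 3 * nx φ o by omega, r0, r1, r2,
      show (9 * o + 2) / 3 = 3 * o by omega, show (9 * o + 5) / 3 = 3 * o + 1 by omega,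
      show (9 * nx φ o + 7) / 3 = 3 * nx φ o + 2 by omega] at h
    exact h
  have h5 : ∀ c < φ.length, x (3 * (3 * c) + 2) + x (3 * (3 * c + 1) + 2) +
      x (3 * (3 * c + 2) + 2) = 1 := by
    intro c hc
    have r0 := rho_e (φ := φ) (o := 3 * c) (by unfold oc; omega)
    have r1 := rho_e (φ := φ) (o := 3 * c + 1) (by unfold oc; omega)
    have r2 := rho_e (φ := φ) (o := 3 * c + 2) (by unfold oc; omega)
    have h := hb (11 * φ.length + c) (by omega)
    rw [show 3 * (11 * φ.length + c) = 33 * φ.length + 3 * c by omega, r0,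
      show 33 * φ.length + 3 * c + 1 = 33 * φ.length + (3 * c + 1) by omega, r1,
      show 33 * φ.length + 3 * c + 2 = 33 * φ.length + (3 * c + 2) by omega, r2,
      show (9 * (3 * c) + 8) / 3 = 3 * (3 * c) + 2 by omega,
      show (9 * (3 * c + 1) + 8) / 3 = 3 * (3 * c + 1) + 2 by omega,
      show (9 * (3 * c + 2) + 8) / 3 = 3 * (3 * c + 2) + 2 by omega] at h
    exact h
  have hc : ∀ o < oc φ, x (3 * nx φ o + 2) = x (3 * o + 2) := by
    intro o ho
    have := h1 o ho
    have := h3 o ho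
    omega
  have hcc : ∀ o < oc φ, ∀ p < oc φ, ov φ o = ov φ p → x (3 * o + 2) = x (3 * p + 2) :=
    fun o ho p hp h => nx_const (f := fun o => x (3 * o + 2)) hc ho hp h
  rw [p13_iff]
  refine ⟨fun v => decide (∃ o < oc φ, ov φ o = v ∧ x (3 * o + 2) = 1), ?_⟩
  intro j hj
  have hτ : ∀ o < oc φ, (decide (∃ p < oc φ, ov φ p = ov φ o ∧ x (3 * p + 2) = 1)).toNat =
      x (3 * o + 2) := by
    intro o ho
    have hle := h1 o ho
    by_cases h : x (3 * o + 2) = 1
    · rw [h, decide_eq_true (show ∃ p < oc φ, ov φ p = ov φ o ∧ x (3 * p + 2) = 1 from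
        ⟨o, ho, rfl, h⟩)]
      rfl
    · have h' : ¬ ∃ p < oc φ, ov φ p = ov φ o ∧ x (3 * p + 2) = 1 := by
        rintro ⟨p, hp, h6, h7⟩
        exact h ((hcc o ho p hp h6.symm).trans h7)
      rw [decide_eq_false h']
      show 0 = _
      omega
  rw [one3_sum, hτ _ (by unfold oc; omega), hτ _ (by unfold oc; omega),
    hτ _ (by unfold oc; omega)]
  exact h5 j hj

end Pool.Agent.J4.H63.OP
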