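import Pool.Agent.J4.H63.OP.Net

/-!
# From an assignment to a perfect code
-/

set_option autoImplicit false

namespace Pool.Agent.J4.H63.OP

open Pool.Agent.NPC Pool.Agent.R544 Pool.Agent.H958R2

/-- the values of the left boundary -/
def xv (φ : N3) (τ : ℕ → Bool) (a : ℕ) : Bool :=
  if a < 9 * φ.length then
    (if a % 3 = 0 then !(τ (ov φ (a / 3))) else if a % 3 = 1 then false else τ (ov φ (a / 3)))
  else τ (ov φ (a - 9 * φ.length))

theorem xv_0 {φ : N3} {τ : ℕ → Bool} {o : ℕ} (ho : o < oc φ) :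
    xv φ τ (3 * o) = !(τ (ov φ o)) := by
  unfold oc at ho
  unfold xv
  rw [if_pos (by omega), if_pos (by omega), show 3 * o / 3 = o by omega]

theorem xv_1 {φ : N3} {τ : ℕ → Bool} {o : ℕ} (ho : o < oc φ) :
    xv φ τ (3 * o + 1) = false := by
  unfold oc at ho
  unfold xv
  rw [if_pos (by omega), if_neg (by omega), if_pos (by omega)]

theorem xv_2 {φ : N3} {τ : ℕ → Bool} {o : ℕ} (ho : o < oc φ) :
    xv φ τ (3 * o + 2) = τ (ov φ o) := by
  unfold oc at ho
  unfold xv
  rw [if_pos (by omega), if_neg (by omega), if_neg (by omega),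
    show (3 * o + 2) / 3 = o by omega]

theorem xv_9 {φ : N3} {τ : ℕ → Bool} {o : ℕ} :
    xv φ τ (9 * φ.length + o) = τ (ov φ o) := by
  unfold xv
  rw [if_neg (by omega), Nat.add_sub_cancel_left]

theorem rhof_mod {φ : N3} {j : ℕ} (hj : j < 36 * φ.length) :
    rhof φ j % 3 = 0 ↔ j < 12 * φ.length := by
  obtain ⟨h1, h2⟩ := rhof_spec hj
  generalize rhof φ j = i at h1 h2 ⊢
  unfold pif at h2
  split_ifs at h2 <;> omega

theorem pif_a {φ : N3} {i : ℕ} (h : i % 3 = 0) : pif φ i = 12 * φ.length - 1 - i / 3 := by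
  unfold pif
  rw [if_pos h]

theorem toNat_not : ∀ b : Bool, (!b).toNat + false.toNat + b.toNat = 1 := by decide

/-- the conditions hold -/
theorem val_of_sat {φ : N3} {τ : ℕ → Bool}
    (hτ : ∀ c < φ.length, (τ (ov φ (3 * c))).toNat + (τ (ov φ (3 * c + 1))).toNat +
      (τ (ov φ (3 * c + 2))).toNat = 1) :
    Val (net φ) (fun i => xv φ τ (i / 3)) (fun i => decide (i % 3 = 0)) where
  x3 i _ := by
    show xv φ τ ((3 * (i / 3) + 1) / 3) = xv φ τ (i / 3)
    rw [show (3 * (i / 3) + 1) / 3 = i / 3 by omega]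
  y3 j hj := by
    have hj' : j < 36 * φ.length := hj
    show decide (rhof φ (3 * (j / 3) + 1) % 3 = 0) = decide (rhof φ j % 3 = 0)
    rw [decide_eq_decide, rhof_mod (by omega), rhof_mod (by omega)]
    omega
  ya a _ := by
    show (decide (3 * a % 3 = 0)).toNat + (decide ((3 * a + 1) % 3 = 0)).toNat +
      (decide ((3 * a + 2) % 3 = 0)).toNat = 1
    rw [decide_eq_true (show 3 * a % 3 = 0 by omega),
      decide_eq_false (show ¬ (3 * a + 1) % 3 = 0 by omega),
      decide_eq_false (show ¬ (3 * a + 2) % 3 = 0 by omega)]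
    rfl
  nc i hi j hj h1 h2 := by
    have hi' : i < 36 * φ.length := hi
    have hj' : j < 36 * φ.length := hj
    have h1' : rhof φ j < i := h1
    have h2' : j ≤ pif φ i := h2
    show (decide (i % 3 = 0) && decide (rhof φ j % 3 = 0)) = false
    by_contra hc
    simp only [Bool.not_eq_false, Bool.and_eq_true, decide_eq_true_eq] at hc
    obtain ⟨h3, h4⟩ := rhof_spec hj'
    rw [pif_a hc.2] at h4
    rw [pif_a hc.1] at h2'
    omega
  xb b hb := by
    have hb' : 3 * b < 36 * φ.length := hb
    show (xv φ τ (rhof φ (3 * b) / 3)).toNat + (xv φ τ (rhof φ (3 * b + 1) / 3)).toNat +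
      (xv φ τ (rhof φ (3 * b + 2) / 3)).toNat = 1
    rcases Nat.lt_or_ge b (4 * φ.length) with c1 | c1
    · obtain ⟨c, rfl⟩ : ∃ c, b = 4 * φ.length - 1 - c := ⟨4 * φ.length - 1 - b, by omega⟩
      have hc : c < 4 * φ.length ∨ 4 * φ.length ≤ c := by omega
      obtain ⟨d, hd, hbd⟩ : ∃ d, d < 4 * φ.length ∧ 4 * φ.length - 1 - c = 4 * φ.length - 1 - d :=
        ⟨min c (4 * φ.length - 1), by omega, by omega⟩
      rw [hbd]
      have r0 := rho_a (φ := φ) (a := 3 * d + 2) (by omega)
      have r1 := rho_a (φ := φ) (a := 3 * d + 1) (by omega)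
      have r2 := rho_a (φ := φ) (a := 3 * d) (by omega)
      rw [show 3 * (4 * φ.length - 1 - d) = 12 * φ.length - 1 - (3 * d + 2) by omega, r0,
        show 12 * φ.length - 1 - (3 * d + 2) + 1 = 12 * φ.length - 1 - (3 * d + 1) by omega, r1,
        show 12 * φ.length - 1 - (3 * d + 2) + 2 = 12 * φ.length - 1 - 3 * d by omega, r2,
        show 3 * (3 * d + 2) / 3 = 3 * d + 2 by omega,
        show 3 * (3 * d + 1) / 3 = 3 * d + 1 by omega,
        show 3 * (3 * d) / 3 = 3 * d by omega]
      rcases Nat.lt_or_ge d (3 * φ.length) with c2 | c2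
      · rw [xv_0 c2, xv_1 c2, xv_2 c2]
        have := toNat_not (τ (ov φ d))
        omega
      · obtain ⟨e, rfl⟩ : ∃ e, d = 3 * φ.length + e := ⟨d - 3 * φ.length, by omega⟩
        rw [show 3 * (3 * φ.length + e) + 2 = 9 * φ.length + (3 * e + 2) by omega,
          show 3 * (3 * φ.length + e) + 1 = 9 * φ.length + (3 * e + 1) by omega,
          show 3 * (3 * φ.length + e) = 9 * φ.length + 3 * e by omega, xv_9, xv_9, xv_9]
        have := hτ e (by omega)
        omega
    · rcases Nat.lt_or_ge b (7 * φ.length) with c2 | c2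
      · obtain ⟨o, ho, hno⟩ := nx_surj (φ := φ) (c := b - 4 * φ.length) (by unfold oc; omega)
        have hn := (nx_spec ho).1
        have hv := (nx_spec ho).2.1
        rw [show 3 * b = 12 * φ.length + 3 * nx φ o by omega, rho_b0 ho, rho_b1 ho, rho_b2 hn]
        unfold oc at ho hn
        rw [show (9 * o + 1) / 3 = 3 * o by omega, show (9 * o + 4) / 3 = 3 * o + 1 by omega,
          show (27 * φ.length + 3 * nx φ o + 1) / 3 = 9 * φ.length + nx φ o by omega,
          xv_0 ho, xv_1 ho, xv_9, hv]
        exact toNat_not _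
      · rcases Nat.lt_or_ge b (10 * φ.length) with c3 | c3
        · obtain ⟨o, ho, hno⟩ := nx_surj (φ := φ) (c := b - 7 * φ.length) (by unfold oc; omega)
          have hn := (nx_spec ho).1
          have hv := (nx_spec ho).2.1
          rw [show 3 * b = 21 * φ.length + 3 * nx φ o by omega, rho_c0 ho, rho_c1 ho, rho_c2 hn]
          unfold oc at ho hn
          rw [show (9 * o + 2) / 3 = 3 * o by omega, show (9 * o + 5) / 3 = 3 * o + 1 by omega,
            show (9 * nx φ o + 7) / 3 = 3 * nx φ o + 2 by omega,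
            xv_0 ho, xv_1 ho, xv_2 hn, hv]
          exact toNat_not _
        · rcases Nat.lt_or_ge b (11 * φ.length) with c4 | c4
          · obtain ⟨c, rfl⟩ : ∃ c, b = 10 * φ.length + c := ⟨b - 10 * φ.length, by omega⟩
            have r0 := rho_d (φ := φ) (o := 3 * c) (by unfold oc; omega)
            have r1 := rho_d (φ := φ) (o := 3 * c + 1) (by unfold oc; omega)
            have r2 := rho_d (φ := φ) (o := 3 * c + 2) (by unfold oc; omega)
            rw [show 3 * (10 * φ.length + c) = 30 * φ.length + 3 * c by omega, r0,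
              show 30 * φ.length + 3 * c + 1 = 30 * φ.length + (3 * c + 1) by omega, r1,
              show 30 * φ.length + 3 * c + 2 = 30 * φ.length + (3 * c + 2) by omega, r2,
              show (27 * φ.length + 3 * (3 * c) + 2) / 3 = 9 * φ.length + 3 * c by omega,
              show (27 * φ.length + 3 * (3 * c + 1) + 2) / 3 = 9 * φ.length + (3 * c + 1) by omega,
              show (27 * φ.length + 3 * (3 * c + 2) + 2) / 3 = 9 * φ.length + (3 * c + 2) by omega,
              xv_9, xv_9, xv_9]
            exact hτ c (by omega)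
          · obtain ⟨c, rfl⟩ : ∃ c, b = 11 * φ.length + c := ⟨b - 11 * φ.length, by omega⟩
            have r0 := rho_e (φ := φ) (o := 3 * c) (by unfold oc; omega)
            have r1 := rho_e (φ := φ) (o := 3 * c + 1) (by unfold oc; omega)
            have r2 := rho_e (φ := φ) (o := 3 * c + 2) (by unfold oc; omega)
            rw [show 3 * (11 * φ.length + c) = 33 * φ.length + 3 * c by omega, r0,
              show 33 * φ.length + 3 * c + 1 = 33 * φ.length + (3 * c + 1) by omega, r1,
              show 33 * φ.length + 3 * c + 2 = 33 * φ.length + (3 * c + 2) by omega, r2,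
              show (9 * (3 * c) + 8) / 3 = 3 * (3 * c) + 2 by omega,
              show (9 * (3 * c + 1) + 8) / 3 = 3 * (3 * c + 1) + 2 by omega,
              show (9 * (3 * c + 2) + 8) / 3 = 3 * (3 * c + 2) + 2 by omega,
              xv_2 (by unfold oc; omega), xv_2 (by unfold oc; omega), xv_2 (by unfold oc; omega)]
            exact hτ c (by omega)

theorem perf_iff (φ : N3) : (∃ s : Lb → ℕ, Perf (net φ) s) ↔ P13 φ := by
  constructor
  · rintro ⟨s, hs⟩
    exact sat_of_perf hs
  · intro h
    rw [p13_iff] at h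
    obtain ⟨τ, hτ⟩ := h
    exact ⟨_, perf_sel (net_good φ) (val_of_sat (τ := τ) fun c hc => (one3_sum _ _ _).1 (hτ c hc))⟩

end Pool.Agent.J4.H63.OP
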