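import Pool.Agent.J4.H63.OP.Deg
import Pool.Agent.Z85.LMD.Plane2

/-!
# The plane drawing of the routing network: the finite check
-/

set_option autoImplicit false

namespace Pool.Agent.J4.H63.OP

open Pool.Agent.Z85.LMD (sep)

/-- the positions in the cell -/
def tabl : List (ℤ × ℤ) :=
  [(85, 43), (84, 52), (84, 60), (83, 52), (84, 41), (82, 26), (88, 38), (90, 50), (87, 65),
    (78, 78), (82, 64), (74, 18), (62, 35), (62, 12), (57, 32), (48, 50), (54, 54), (52, 76),
    (65, 87), (50, 90), (38, 88), (26, 82), (32, 65), (23, 62), (18, 74), (12, 62), (19, 49),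
    (22, 22), (10, 50), (50, 10), (71, 69), (59, 81), (19, 41), (90, 90), (90, 75), (74, 51),
    (65, 52), (48, 35), (31, 29), (25, 10), (10, 10), (49, 26), (2, 35), (42, 98)]

/-- the position of the vertex of kind `t` in the cell `(a, b)` -/
def cpos (a b : ℤ) (t : ℕ) : ℤ × ℤ :=
  (100 * b + (tabl.getD t (0, 0)).1, 100 * a + (tabl.getD t (0, 0)).2)

/-- two vertices which cannot both exist -/
def bad (x y : Lb) : Bool :=
  (decide (x.1 = y.1) && decide (x.2.1 = y.2.1) && decide (x.2.2 < 30) && decide (30 ≤ y.2.2) &&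
    decide (y.2.2 < 42)) ||
  (decide (x.2.2 = 42) && decide (1 ≤ x.2.1)) ||
  (decide (x.2.2 = 43) && decide (x.1 < y.1)) ||
  (decide (x.2.2 = 42) && decide (y.2.2 = 42) && decide (x.1 < y.1) && decide (y.1 ≤ x.1 + 2)) ||
  (decide (x.2.2 = 43) && decide (y.2.2 = 43) && decide (x.2.1 < y.2.1) &&
    decide (y.2.1 ≤ x.2.1 + 2))

/-- the first end -/
def e1 (p : ℕ × ℕ × ℕ × ℕ × ℕ) (a b : ℕ) : Lb := (a, b, p.1)

/-- the second end -/
def e2 (p : ℕ × ℕ × ℕ × ℕ × ℕ) (a b : ℕ) : Lb := (a + p.2.2.1, b + p.2.2.2.1, p.2.1)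

/-- some two ends cannot both exist -/
def imp (p : ℕ × ℕ × ℕ × ℕ × ℕ) (a b : ℕ) (q : ℕ × ℕ × ℕ × ℕ × ℕ) (c d : ℕ) : Bool :=
  [e1 p a b, e2 p a b, e1 q c d, e2 q c d].any (fun x =>
    [e1 p a b, e2 p a b, e1 q c d, e2 q c d].any (fun y => bad x y))

/-- the check for two kinds of edges, at the cells `(a, b)` and `(c, d)` -/
def chk (p : ℕ × ℕ × ℕ × ℕ × ℕ) (a b : ℕ) (q : ℕ × ℕ × ℕ × ℕ × ℕ) (c d : ℕ) : Bool :=
  sep (cpos a b p.1) (cpos (a + p.2.2.1 : ℕ) (b + p.2.2.2.1 : ℕ) p.2.1)
    (cpos c d q.1) (cpos (c + q.2.2.1 : ℕ) (d + q.2.2.2.1 : ℕ) q.2.1) ||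
  (decide (p = q) && decide (a = c) && decide (b = d)) || imp p a b q c d

/-- all checks for one kind of edges -/
def chkRow (p : ℕ × ℕ × ℕ × ℕ × ℕ) : Bool :=
  pats.all fun q => [(0, 0), (0, 1), (1, 0)].all fun x => [(0, 0), (0, 1), (1, 0)].all fun y =>
    chk p x.1 y.1 q x.2 y.2

/-- the checks for a kind of edges and the kinds of vertices -/
def chkV (p : ℕ × ℕ × ℕ × ℕ × ℕ) : Bool :=
  (List.range 44).all fun t => ([(0, 0), (0, 1), (1, 0)] : List (ℕ × ℕ)).all fun x =>
    ([(0, 0), (0, 1), (1, 0)] : List (ℕ × ℕ)).all fun y =>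
    sep (cpos x.1 y.1 p.1) (cpos (x.1 + p.2.2.1 : ℕ) (y.1 + p.2.2.2.1 : ℕ) p.2.1)
      (cpos x.2 y.2 t) (cpos x.2 y.2 t)

theorem rows0 : ((pats.drop 0).take 5).all chkRow = true := by decide +kernel

theorem rows1 : ((pats.drop 5).take 5).all chkRow = true := by decide +kernel

theorem rows2 : ((pats.drop 10).take 5).all chkRow = true := by decide +kernel

theorem rows3 : ((pats.drop 15).take 5).all chkRow = true := by decide +kernel

theorem rows4 : ((pats.drop 20).take 5).all chkRow = true := by decide +kernel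

theorem rows5 : ((pats.drop 25).take 5).all chkRow = true := by decide +kernel

theorem rows6 : ((pats.drop 30).take 5).all chkRow = true := by decide +kernel

theorem rows7 : ((pats.drop 35).take 5).all chkRow = true := by decide +kernel

theorem rows8 : ((pats.drop 40).take 5).all chkRow = true := by decide +kernel

theorem rows9 : ((pats.drop 45).take 5).all chkRow = true := by decide +kernel

theorem rows10 : ((pats.drop 50).take 5).all chkRow = true := by decide +kernel

theorem rows11 : ((pats.drop 55).take 5).all chkRow = true := by decide +kernel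

theorem rows12 : ((pats.drop 60).take 5).all chkRow = true := by decide +kernel

theorem rows13 : ((pats.drop 65).take 5).all chkRow = true := by decide +kernel

theorem rows14 : ((pats.drop 70).take 5).all chkRow = true := by decide +kernel

theorem rows15 : ((pats.drop 75).take 5).all chkRow = true := by decide +kernel

theorem vrows0 : ((pats.drop 0).take 10).all chkV = true := by decide +kernel

theorem vrows1 : ((pats.drop 10).take 10).all chkV = true := by decide +kernel

theorem vrows2 : ((pats.drop 20).take 10).all chkV = true := by decide +kernel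

theorem vrows3 : ((pats.drop 30).take 10).all chkV = true := by decide +kernel

theorem vrows4 : ((pats.drop 40).take 10).all chkV = true := by decide +kernel

theorem vrows5 : ((pats.drop 50).take 10).all chkV = true := by decide +kernel

theorem vrows6 : ((pats.drop 60).take 10).all chkV = true := by decide +kernel

theorem vrows7 : ((pats.drop 70).take 10).all chkV = true := by decide +kernel

/-- the coordinates of the ends -/
theorem box_all : ∀ p ∈ pats, p.2.2.1 ≤ 1 ∧ p.2.2.2.1 ≤ 1 ∧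
    (2 ≤ (tabl.getD p.1 (0, 0)).1 ∧ (tabl.getD p.1 (0, 0)).1 ≤ 98) ∧
    (2 ≤ (tabl.getD p.1 (0, 0)).2 ∧ (tabl.getD p.1 (0, 0)).2 ≤ 98) ∧
    (2 ≤ (tabl.getD p.2.1 (0, 0)).1 ∧ (tabl.getD p.2.1 (0, 0)).1 ≤ 98) ∧
    (2 ≤ (tabl.getD p.2.1 (0, 0)).2 ∧ (tabl.getD p.2.1 (0, 0)).2 ≤ 98) := by decide +kernel

theorem tab_inj : ∀ s ∈ List.range 44, ∀ t ∈ List.range 44,
    tabl.getD s (0, 0) = tabl.getD t (0, 0) → s = t := by decide +kernel

theorem tab_lt : ∀ s ∈ List.range 44, (2 ≤ (tabl.getD s (0, 0)).1 ∧ (tabl.getD s (0, 0)).1 ≤ 98) ∧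
    (2 ≤ (tabl.getD s (0, 0)).2 ∧ (tabl.getD s (0, 0)).2 ≤ 98) := by decide +kernel

end Pool.Agent.J4.H63.OP
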