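import Pool.Agent.J4.H63.OP.Plane

/-!
# The plane drawing of the routing network
-/

set_option autoImplicit false

namespace Pool.Agent.J4.H63.OP

open Pool.Agent.Z85.LMD (sep rp rp_inj lfR seg_ge sep_sound sep_shift IsPlanar IsPlaneDrawing)

variable {D : Net}

theorem chk_all {p q : ℕ × ℕ × ℕ × ℕ × ℕ} (hp : p ∈ pats) (hq : q ∈ pats) {a b c d : ℕ}
    (ha : a ≤ 1) (hb : b ≤ 1) (hc : c ≤ 1) (hd : d ≤ 1) (hac : a = 0 ∨ c = 0)
    (hbd : b = 0 ∨ d = 0) : chk p a b q c d = true := by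
  have hrow : chkRow p = true := by
    have hall : pats.all chkRow = true := by
      have e : pats = (pats.drop 0).take 5 ++ ((pats.drop 5).take 5 ++ ((pats.drop 10).take 5 ++
        ((pats.drop 15).take 5 ++ ((pats.drop 20).take 5 ++ ((pats.drop 25).take 5 ++
        ((pats.drop 30).take 5 ++ ((pats.drop 35).take 5 ++ ((pats.drop 40).take 5 ++
        ((pats.drop 45).take 5 ++ ((pats.drop 50).take 5 ++ ((pats.drop 55).take 5 ++
        ((pats.drop 60).take 5 ++ ((pats.drop 65).take 5 ++ ((pats.drop 70).take 5 ++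
        (pats.drop 75).take 5)))))))))))))) := by decide +kernel
      rw [e]
      simp only [List.all_append, rows0, rows1, rows2, rows3, rows4, rows5, rows6, rows7, rows8,
        rows9, rows10, rows11, rows12, rows13, rows14, rows15, Bool.and_true]
    exact List.all_eq_true.1 hall p hp
  unfold chkRow at hrow
  have h1 := List.all_eq_true.1 (List.all_eq_true.1 hrow q hq) (a, c) (by
    simp only [List.mem_cons, Prod.mk.injEq, List.not_mem_nil, or_false]
    omega)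
  exact List.all_eq_true.1 h1 (b, d) (by
    simp only [List.mem_cons, Prod.mk.injEq, List.not_mem_nil, or_false]
    omega)

theorem chkV_all {p : ℕ × ℕ × ℕ × ℕ × ℕ} (hp : p ∈ pats) {t : ℕ} (ht : t < 44) {a b c d : ℕ}
    (ha : a ≤ 1) (hb : b ≤ 1) (hc : c ≤ 1) (hd : d ≤ 1) (hac : a = 0 ∨ c = 0)
    (hbd : b = 0 ∨ d = 0) :
    sep (cpos a b p.1) (cpos (a + p.2.2.1 : ℕ) (b + p.2.2.2.1 : ℕ) p.2.1)
      (cpos c d t) (cpos c d t) = true := by
  have hrow : chkV p = true := by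
    have hall : pats.all chkV = true := by
      have e : pats = (pats.drop 0).take 10 ++ ((pats.drop 10).take 10 ++
        ((pats.drop 20).take 10 ++ ((pats.drop 30).take 10 ++ ((pats.drop 40).take 10 ++
        ((pats.drop 50).take 10 ++ ((pats.drop 60).take 10 ++
        (pats.drop 70).take 10)))))) := by decide +kernel
      rw [e]
      simp only [List.all_append, vrows0, vrows1, vrows2, vrows3, vrows4, vrows5, vrows6, vrows7,
        Bool.and_true]
    exact List.all_eq_true.1 hall p hp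
  unfold chkV at hrow
  have h1 := List.all_eq_true.1 (List.all_eq_true.1 hrow t (List.mem_range.2 ht)) (a, c) (by
    simp only [List.mem_cons, Prod.mk.injEq, List.not_mem_nil, or_false]
    omega)
  exact List.all_eq_true.1 h1 (b, d) (by
    simp only [List.mem_cons, Prod.mk.injEq, List.not_mem_nil, or_false]
    omega)

theorem cpos_shift (a b i j : ℤ) (t : ℕ) :
    cpos (i + a) (j + b) t = cpos a b t + (100 * j, 100 * i) := by
  unfold cpos
  simp only [Prod.mk_add_mk, Prod.mk.injEq]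
  constructor <;> ring

/-- the integer position of a vertex -/
def posZ (v : Lb) : ℤ × ℤ := cpos v.1 v.2.1 v.2.2

/-- the position of a vertex -/
def posL (v : Lb) : ℝ × ℝ := rp (posZ v)

theorem posZ_inj {v w : Lb} (hv : ok D v) (hw : ok D w) (h : posZ v = posZ w) : v = w := by
  obtain ⟨i, j, t⟩ := v
  obtain ⟨i', j', t'⟩ := w
  have h1 := tab_lt t (List.mem_range.2 (ok_lt hv))
  have h2 := tab_lt t' (List.mem_range.2 (ok_lt hw))
  have h3 := tab_inj t (List.mem_range.2 (ok_lt hv)) t' (List.mem_range.2 (ok_lt hw))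
  unfold posZ cpos at h
  simp only [Prod.mk.injEq] at h
  obtain ⟨h4, h5⟩ := h
  have h6 : i = i' := by omega
  have h7 : j = j' := by omega
  have h8 : t = t' := h3 (Prod.ext (by omega) (by omega))
  rw [h6, h7, h8]

theorem bad_sound {x y : Lb} (i0 j0 : ℕ) (hx : ok D (i0 + x.1, j0 + x.2.1, x.2.2))
    (hy : ok D (i0 + y.1, j0 + y.2.1, y.2.2)) : bad x y = false := by
  obtain ⟨i, j, t⟩ := x
  obtain ⟨i', j', t'⟩ := y
  rw [Bool.eq_false_iff]
  intro h
  unfold bad at h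
  simp only [Bool.or_eq_true, Bool.and_eq_true, decide_eq_true_eq] at h
  unfold ok at hx hy
  dsimp only at hx hy
  rcases h with (((h | h) | h) | h) | h
  · obtain ⟨⟨⟨⟨rfl, rfl⟩, h1⟩, h2⟩, h3⟩ := h
    omega
  · omega
  · omega
  · omega
  · omega

/-- the coordinates of the points of an edge -/
theorem box {p : ℕ × ℕ × ℕ × ℕ × ℕ} (hp : p ∈ pats) {i j : ℕ} {x : ℝ × ℝ}
    (hx : x ∈ segment ℝ (rp (cpos i j p.1))
      (rp (cpos (i + p.2.2.1 : ℕ) (j + p.2.2.2.1 : ℕ) p.2.1))) :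
    (100 * (j : ℝ) + 2 ≤ x.1 ∧ x.1 ≤ 100 * (j : ℝ) + 198) ∧
      (100 * (i : ℝ) + 2 ≤ x.2 ∧ x.2 ≤ 100 * (i : ℝ) + 198) := by
  obtain ⟨k1, k2, ⟨h1, h2⟩, ⟨h3, h4⟩, ⟨h5, h6⟩, h7, h8⟩ := box_all p hp
  have e1 := seg_ge (c := (1, 0)) (m := 100 * j + 2) (by simp only [Pool.Agent.Z85.LMD.lf, cpos]; omega)
    (by simp only [Pool.Agent.Z85.LMD.lf, cpos]; push_cast; omega) hx
  have e2 := seg_ge (c := (-1, 0)) (m := -(100 * j + 198))
    (by simp only [Pool.Agent.Z85.LMD.lf, cpos]; omega)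
    (by simp only [Pool.Agent.Z85.LMD.lf, cpos]; push_cast; omega) hx
  have e3 := seg_ge (c := (0, 1)) (m := 100 * i + 2) (by simp only [Pool.Agent.Z85.LMD.lf, cpos]; omega)
    (by simp only [Pool.Agent.Z85.LMD.lf, cpos]; push_cast; omega) hx
  have e4 := seg_ge (c := (0, -1)) (m := -(100 * i + 198))
    (by simp only [Pool.Agent.Z85.LMD.lf, cpos]; omega)
    (by simp only [Pool.Agent.Z85.LMD.lf, cpos]; push_cast; omega) hx
  unfold lfR at e1 e2 e3 e4
  push_cast at e1 e2 e3 e4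
  refine ⟨⟨?_, ?_⟩, ?_, ?_⟩ <;> linarith

theorem near {i j i' j' : ℕ} {x : ℝ × ℝ}
    (h : (100 * (j : ℝ) + 2 ≤ x.1 ∧ x.1 ≤ 100 * (j : ℝ) + 198) ∧
      (100 * (i : ℝ) + 2 ≤ x.2 ∧ x.2 ≤ 100 * (i : ℝ) + 198))
    (h' : (100 * (j' : ℝ) + 2 ≤ x.1 ∧ x.1 ≤ 100 * (j' : ℝ) + 198) ∧
      (100 * (i' : ℝ) + 2 ≤ x.2 ∧ x.2 ≤ 100 * (i' : ℝ) + 198)) :
    i ≤ i' + 1 ∧ i' ≤ i + 1 ∧ j ≤ j' + 1 ∧ j' ≤ j + 1 := by
  obtain ⟨⟨h1, h2⟩, h3, h4⟩ := h
  obtain ⟨⟨k1, k2⟩, k3, k4⟩ := h'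
  refine ⟨?_, ?_, ?_, ?_⟩
  · have : (i : ℝ) < i' + 2 := by linarith
    have : i < i' + 2 := by exact_mod_cast this
    omega
  · have : (i' : ℝ) < i + 2 := by linarith
    have : i' < i + 2 := by exact_mod_cast this
    omega
  · have : (j : ℝ) < j' + 2 := by linarith
    have : j < j' + 2 := by exact_mod_cast this
    omega
  · have : (j' : ℝ) < j + 2 := by linarith
    have : j' < j + 2 := by exact_mod_cast this
    omega

/-- two edges meet at most in a common end -/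
theorem edge_meet {v w v' w' : Lb} (hv : ok D v) (hw : ok D w) (hv' : ok D v')
    (hw' : ok D w') (h : E0 D v w) (h' : E0 D v' w') {x : ℝ × ℝ}
    (hx : x ∈ segment ℝ (posL v) (posL w)) (hx' : x ∈ segment ℝ (posL v') (posL w')) :
    (v = v' ∧ w = w') ∨ ∃ z, x = posL z ∧ (z = v ∨ z = w) ∧ (z = v' ∨ z = w') := by
  have hfin : ∀ {A B C' E : Lb}, ok D A → ok D B → ok D C' → ok D E →
      (x = rp (posZ A) ∧ (posZ A = posZ C' ∨ posZ A = posZ E)) ∨
        (x = rp (posZ B) ∧ (posZ B = posZ C' ∨ posZ B = posZ E)) →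
      ∃ z, x = posL z ∧ (z = A ∨ z = B) ∧ (z = C' ∨ z = E) := by
    rintro A B C' E hA hB hC hE (⟨h1, h2⟩ | ⟨h1, h2⟩)
    · refine ⟨A, h1, Or.inl rfl, ?_⟩
      rcases h2 with h2 | h2
      · exact Or.inl (posZ_inj hA hC h2)
      · exact Or.inr (posZ_inj hA hE h2)
    · refine ⟨B, h1, Or.inr rfl, ?_⟩
      rcases h2 with h2 | h2
      · exact Or.inl (posZ_inj hB hC h2)
      · exact Or.inr (posZ_inj hB hE h2)
  obtain ⟨i, j, t⟩ := v
  obtain ⟨k, l, s⟩ := w
  obtain ⟨i', j', t'⟩ := v'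
  obtain ⟨k', l', s'⟩ := w'
  obtain ⟨p, hp, h1, h2, h3, h4, hc⟩ := h
  obtain ⟨q, hq, h1', h2', h3', h4', hc'⟩ := h'
  dsimp only at h1 h2 h3 h4 h1' h2' h3' h4'
  subst h1 h2 h3 h4 h1' h2' h3' h4'
  have hn : i ≤ i' + 1 ∧ i' ≤ i + 1 ∧ j ≤ j' + 1 ∧ j' ≤ j + 1 := near (box hp hx) (box hq hx')
  have hi : ∃ i0 a c, i = i0 + a ∧ i' = i0 + c ∧ a ≤ 1 ∧ c ≤ 1 ∧ (a = 0 ∨ c = 0) :=
    ⟨min i i', i - min i i', i' - min i i', by omega, by omega, by omega, by omega, by omega⟩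
  have hj : ∃ j0 b d, j = j0 + b ∧ j' = j0 + d ∧ b ≤ 1 ∧ d ≤ 1 ∧ (b = 0 ∨ d = 0) :=
    ⟨min j j', j - min j j', j' - min j j', by omega, by omega, by omega, by omega, by omega⟩
  obtain ⟨i0, a, c, rfl, rfl, ha, hc1, hac⟩ := hi
  obtain ⟨j0, b, d, rfl, rfl, hb, hd, hbd⟩ := hj
  have hchk := chk_all hp hq ha hb hc1 hd hac hbd
  unfold chk at hchk
  simp only [Bool.or_eq_true, Bool.and_eq_true, decide_eq_true_eq] at hchk
  rcases hchk with (h3 | h3) | h3
  rotate_left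
  · obtain ⟨⟨rfl, rfl⟩, rfl⟩ := h3
    exact Or.inl ⟨rfl, rfl⟩
  · exfalso
    have hok : ∀ x ∈ [e1 p a b, e2 p a b, e1 q c d, e2 q c d],
        ok D (i0 + x.1, j0 + x.2.1, x.2.2) := by
      intro x hx
      simp only [List.mem_cons, List.not_mem_nil, or_false] at hx
      rcases hx with rfl | rfl | rfl | rfl
      · exact hv
      · unfold e2
        dsimp only
        rw [← add_assoc, ← add_assoc]
        exact hw
      · exact hv'
      · unfold e2
        dsimp only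
        rw [← add_assoc, ← add_assoc]
        exact hw'
    unfold imp at h3
    rw [List.any_eq_true] at h3
    obtain ⟨x, hx, h3⟩ := h3
    rw [List.any_eq_true] at h3
    obtain ⟨y, hy, h3⟩ := h3
    rw [bad_sound i0 j0 (hok x hx) (hok y hy)] at h3
    exact absurd h3 (by simp)
  · right
    refine hfin hv hw hv' hw' (sep_sound ?_ hx hx')
    refine Eq.trans ?_ ((sep_shift _ _ _ _ (100 * (j0 : ℤ), 100 * (i0 : ℤ))).trans h3)
    congr 1
    · rw [← cpos_shift]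
      simp [posZ]
    · rw [← cpos_shift]
      simp [posZ, add_assoc]
    · rw [← cpos_shift]
      simp [posZ]
    · rw [← cpos_shift]
      simp [posZ, add_assoc]

/-- no vertex lies on an edge of which it is not an end -/
theorem vert_edge {v w z : Lb} (hv : ok D v) (hw : ok D w) (hz : ok D z)
    (h : E0 D v w) (hx : posL z ∈ segment ℝ (posL v) (posL w)) : z = v ∨ z = w := by
  have hfin : ∀ {A B : Lb}, ok D A → ok D B →
      (posL z = rp (posZ A) ∧ (posZ A = posZ z ∨ posZ A = posZ z)) ∨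
        (posL z = rp (posZ B) ∧ (posZ B = posZ z ∨ posZ B = posZ z)) →
      z = A ∨ z = B := by
    rintro A B hA hB (⟨h1, -⟩ | ⟨h1, -⟩)
    · exact Or.inl (posZ_inj hz hA (rp_inj h1))
    · exact Or.inr (posZ_inj hz hB (rp_inj h1))
  have hx' : posL z ∈ segment ℝ (posL z) (posL z) := left_mem_segment _ _ _
  obtain ⟨i, j, t⟩ := v
  obtain ⟨k, l, s⟩ := w
  obtain ⟨i', j', t'⟩ := z
  obtain ⟨p, hp, h1, h2, h3, h4, hc⟩ := h
  dsimp only at h1 h2 h3 h4
  subst h1 h2 h3 h4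
  have ht := ok_lt hz
  dsimp only at ht
  have hbz : (100 * (j' : ℝ) + 2 ≤ (posL (i', j', t')).1 ∧
      (posL (i', j', t')).1 ≤ 100 * (j' : ℝ) + 198) ∧
      (100 * (i' : ℝ) + 2 ≤ (posL (i', j', t')).2 ∧
        (posL (i', j', t')).2 ≤ 100 * (i' : ℝ) + 198) := by
    obtain ⟨⟨h1, h2⟩, h3, h4⟩ := tab_lt t' (List.mem_range.2 ht)
    unfold posL rp posZ cpos
    dsimp only
    generalize (tabl.getD t' (0, 0)).1 = X at h1 h2 ⊢
    generalize (tabl.getD t' (0, 0)).2 = Y at h3 h4 ⊢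
    have h1' : (2 : ℝ) ≤ X := by exact_mod_cast h1
    have h2' : (X : ℝ) ≤ 98 := by exact_mod_cast h2
    have h3' : (2 : ℝ) ≤ Y := by exact_mod_cast h3
    have h4' : (Y : ℝ) ≤ 98 := by exact_mod_cast h4
    push_cast
    refine ⟨⟨?_, ?_⟩, ?_, ?_⟩ <;> linarith
  have hn : i ≤ i' + 1 ∧ i' ≤ i + 1 ∧ j ≤ j' + 1 ∧ j' ≤ j + 1 := near (box hp hx) hbz
  have hi : ∃ i0 a c, i = i0 + a ∧ i' = i0 + c ∧ a ≤ 1 ∧ c ≤ 1 ∧ (a = 0 ∨ c = 0) :=
    ⟨min i i', i - min i i', i' - min i i', by omega, by omega, by omega, by omega, by omega⟩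
  have hj : ∃ j0 b d, j = j0 + b ∧ j' = j0 + d ∧ b ≤ 1 ∧ d ≤ 1 ∧ (b = 0 ∨ d = 0) :=
    ⟨min j j', j - min j j', j' - min j j', by omega, by omega, by omega, by omega, by omega⟩
  obtain ⟨i0, a, c, rfl, rfl, ha, hc1, hac⟩ := hi
  obtain ⟨j0, b, d, rfl, rfl, hb, hd, hbd⟩ := hj
  have h3 := chkV_all hp ht ha hb hc1 hd hac hbd
  refine hfin hv hw (sep_sound ?_ hx hx')
  refine Eq.trans ?_ ((sep_shift _ _ _ _ (100 * (j0 : ℤ), 100 * (i0 : ℤ))).trans h3)
  congr 1
  · rw [← cpos_shift]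
    simp [posZ]
  · rw [← cpos_shift]
    simp [posZ, add_assoc]
  · rw [← cpos_shift]
    simp [posZ]
  · rw [← cpos_shift]
    simp [posZ]

/-- the drawing of the graph given by a list of labels -/
theorem planar_comap {U : Type} {ℓ : U → Lb} (hinj : Function.Injective ℓ)
    (hok : ∀ i, ok D (ℓ i)) : IsPlanar ((GG D).comap ℓ) := by
  refine ⟨fun i => posL (ℓ i), ?_, ?_, ?_⟩
  · intro i j h
    exact hinj (posZ_inj (hok i) (hok j) (rp_inj h))
  · intro u v w huv hw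
    obtain ⟨-, -, h | h⟩ := huv
    · rcases vert_edge (hok u) (hok v) (hok w) h hw with h1 | h1
      · exact Or.inl (hinj h1)
      · exact Or.inr (hinj h1)
    · rw [segment_symm] at hw
      rcases vert_edge (hok v) (hok u) (hok w) h hw with h1 | h1
      · exact Or.inr (hinj h1)
      · exact Or.inl (hinj h1)
  · intro u v u' v' huv huv' hne x hx hx'
    have key : ∀ a b a' b' : U, E0 D (ℓ a) (ℓ b) → E0 D (ℓ a') (ℓ b') →
        s(a, b) ≠ s(a', b') → x ∈ segment ℝ (posL (ℓ a)) (posL (ℓ b)) →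
        x ∈ segment ℝ (posL (ℓ a')) (posL (ℓ b')) →
        ∃ w, x = posL (ℓ w) ∧ (w = a ∨ w = b) ∧ (w = a' ∨ w = b') := by
      intro a b a' b' h1 h2 h3 h4 h5
      rcases edge_meet (hok a) (hok b) (hok a') (hok b') h1 h2 h4 h5 with ⟨h6, h7⟩ |
        ⟨z, h6, h7, h8⟩
      · exact (h3 (by rw [hinj h6, hinj h7])).elim
      · rcases h7 with rfl | rfl
        · exact ⟨a, h6, Or.inl rfl, by
            rcases h8 with h8 | h8
            · exact Or.inl (hinj h8)
            · exact Or.inr (hinj h8)⟩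
        · exact ⟨b, h6, Or.inr rfl, by
            rcases h8 with h8 | h8
            · exact Or.inl (hinj h8)
            · exact Or.inr (hinj h8)⟩
    obtain ⟨-, -, h | h⟩ := huv <;> obtain ⟨-, -, h' | h'⟩ := huv'
    · exact key u v u' v' h h' hne hx hx'
    · rw [segment_symm] at hx'
      obtain ⟨w, h1, h2, h3⟩ := key u v v' u' h h' (by rwa [Sym2.eq_swap (a := v')]) hx hx'
      exact ⟨w, h1, h2, h3.symm⟩
    · rw [segment_symm] at hx
      obtain ⟨w, h1, h2, h3⟩ := key v u u' v' h h' (by rwa [Sym2.eq_swap (a := v)]) hx hx'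
      exact ⟨w, h1, h2.symm, h3⟩
    · rw [segment_symm] at hx hx'
      obtain ⟨w, h1, h2, h3⟩ := key v u v' u' h h'
        (by rwa [Sym2.eq_swap (a := v), Sym2.eq_swap (a := v')]) hx hx'
      exact ⟨w, h1, h2.symm, h3.symm⟩

end Pool.Agent.J4.H63.OP
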