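import Pool.Agent.J4.H63.OP.Grid

/-!
# The neighbours of the ports
-/

set_option autoImplicit false

namespace Pool.Agent.J4.H63.OP

variable {D : Net}

/-- an edge in the direction of its pattern -/
theorem mkE {i j t di dj s k : ℕ} (hp : (t, s, di, dj, k) ∈ pats)
    (h1 : ok D (i, j, t)) (h2 : ok D (i + di, j + dj, s)) (h3 : cnd D k (i, j, t)) :
    (GG D).Adj (i, j, t) (i + di, j + dj, s) :=
  ⟨h1, h2, Or.inl ⟨_, hp, rfl, rfl, rfl, rfl, h3⟩⟩

theorem ok_cell {i j t s : ℕ} (h : ok D (i, j, t)) (ht : t < 42) (hs : s < 42)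
    (hts : t < 30 ↔ s < 30) : ok D (i, j, s) := by
  unfold ok at h ⊢
  dsimp only at h ⊢
  omega

theorem adj_cell {i j t s : ℕ} (h : ok D (i, j, t)) (ht : t < 42)
    (hs : s ∈ adjl.getD t []) : (GG D).Adj (i, j, t) (i, j, s) := by
  have ht' := List.mem_range.2 ht
  obtain ⟨h1, h2⟩ := adjl_cell t ht' s hs
  refine ⟨h, ok_cell h ht h1 h2, ?_⟩
  rcases (adjl_spec t ht' s (List.mem_range.2 h1)).1 hs with h3 | h3
  · exact Or.inl ⟨_, h3, rfl, rfl, rfl, rfl, Or.inl rfl⟩
  · exact Or.inr ⟨_, h3, rfl, rfl, rfl, rfl, Or.inl rfl⟩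

/-- the right exit is adjacent to the left entrance of the next cell -/
theorem adj_ro_il (hD : D.Good) {i j : ℕ} (hi : i < D.N) (hj : j < D.pi i) :
    (GG D).Adj (ro D i j) (il D i (j + 1)) := by
  have h1 := hD.pi_lt i hi
  have h2 := hD.rho_lt (j + 1)
  have h3 := hD.rho_pi i hi
  unfold ro il
  refine mkE (di := 0) (dj := 1) (k := 1) ?_ ?_ ?_ (Or.inr (Or.inl ⟨rfl, hj⟩))
  · split_ifs <;> decide +kernel
  · unfold ok
    dsimp only
    split_ifs <;> omega
  · unfold ok
    simp only [Nat.add_zero]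
    split_ifs <;> omega

/-- the bottom exit is adjacent to the top entrance of the next cell -/
theorem adj_bo_it (hD : D.Good) {i j : ℕ} (hi : i + 1 < D.N) (hj : j < D.N)
    (h : D.rho j ≤ i) : (GG D).Adj (bo D i j) (it D (i + 1) j) := by
  have h1 := hD.pi_rho j hj
  have h2 : D.rho j = i → D.pi (D.rho j) = D.pi i := cong1 D.pi
  unfold bo it
  refine mkE (di := 1) (dj := 0) (k := 2) ?_ ?_ ?_ (Or.inr (Or.inr ⟨rfl, h⟩))
  · split_ifs <;> decide +kernel
  · unfold ok
    dsimp only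
    split_ifs <;> omega
  · unfold ok
    simp only [Nat.add_zero]
    split_ifs <;> omega

theorem ok_il0 {i : ℕ} (hi : i < D.N) : ok D (il D i 0) := by
  unfold ok il
  dsimp only
  split_ifs <;> omega

theorem ok_boN (hD : D.Good) {j : ℕ} (hj : j < D.N) : ok D (bo D (D.N - 1) j) := by
  have h1 := hD.pi_rho j hj
  have h2 := hD.rho_lt j hj
  have h3 : D.rho j = D.N - 1 → D.pi (D.rho j) = D.pi (D.N - 1) := cong1 D.pi
  unfold ok bo
  dsimp only
  split_ifs <;> omega

/-- the left entrances of the column `0` -/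
theorem adj_left (hD : D.Good) {i : ℕ} (hi : i < D.N) :
    (GG D).Adj (3 * (i / 3) + 1, 0, 42) (il D i 0) := by
  have h9 := hD.mod3
  have hok : ok D (3 * (i / 3) + 1, 0, 42) := by
    unfold ok
    dsimp only
    omega
  have h1 := ok_il0 hi
  rcases Nat.lt_or_ge (i % 3) 1 with h | h
  · have e : 3 * (i / 3) + 1 = i + 1 := by omega
    rw [e] at hok ⊢
    apply (GG D).adj_symm
    unfold il at h1 ⊢
    refine mkE (di := 1) (dj := 0) (k := 0) ?_ h1 hok (Or.inl rfl)
    split_ifs <;> decide +kernel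
  · rcases Nat.lt_or_ge (i % 3) 2 with h2 | h2
    · have e : 3 * (i / 3) + 1 = i := by omega
      rw [e] at hok ⊢
      unfold il at h1 ⊢
      refine mkE (di := 0) (dj := 0) (k := 0) ?_ hok h1 (Or.inl rfl)
      split_ifs <;> decide +kernel
    · obtain ⟨a, rfl⟩ : ∃ a, i = a + 1 := ⟨i - 1, by omega⟩
      have e : 3 * ((a + 1) / 3) + 1 = a := by omega
      rw [e] at hok ⊢
      unfold il at h1 ⊢
      refine mkE (di := 1) (dj := 0) (k := 0) ?_ hok h1 (Or.inl rfl)
      split_ifs <;> decide +kernel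

/-- the bottom exits of the last row -/
theorem adj_bottom (hD : D.Good) {j : ℕ} (hj : j < D.N) :
    (GG D).Adj (D.N - 1, 3 * (j / 3) + 1, 43) (bo D (D.N - 1) j) := by
  have h9 := hD.mod3
  have hok : ok D (D.N - 1, 3 * (j / 3) + 1, 43) := by
    unfold ok
    dsimp only
    omega
  have h1 := ok_boN hD hj
  rcases Nat.lt_or_ge (j % 3) 1 with h | h
  · have e : 3 * (j / 3) + 1 = j + 1 := by omega
    rw [e] at hok ⊢
    apply (GG D).adj_symm
    unfold bo at h1 ⊢
    refine mkE (di := 0) (dj := 1) (k := 0) ?_ h1 hok (Or.inl rfl)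
    split_ifs <;> decide +kernel
  · rcases Nat.lt_or_ge (j % 3) 2 with h2 | h2
    · have e : 3 * (j / 3) + 1 = j := by omega
      rw [e] at hok ⊢
      unfold bo at h1 ⊢
      refine mkE (di := 0) (dj := 0) (k := 0) ?_ hok h1 (Or.inl rfl)
      split_ifs <;> decide +kernel
    · obtain ⟨a, rfl⟩ : ∃ a, j = a + 1 := ⟨j - 1, by omega⟩
      have e : 3 * ((a + 1) / 3) + 1 = a := by omega
      rw [e] at hok ⊢
      unfold bo at h1 ⊢
      refine mkE (di := 0) (dj := 1) (k := 0) ?_ hok h1 (Or.inl rfl)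
      split_ifs <;> decide +kernel

theorem nb7 {i j : ℕ} {w : Lb}
    (h : (GG D).Adj (i, j, 7) w) : w = rt D i j ∨ w = (i, j, 6) ∨ w = (i, j, 8) := by
  obtain ⟨i', j', t'⟩ := w
  rw [adj_iff'] at h
  rw [rt, eq_il]
  simp only [Prod.mk.injEq]
  obtain ⟨-, hw, h⟩ := h
  simp [pats, cnd] at h
  rcases h with (⟨rfl, rfl, rfl⟩ | ⟨rfl, rfl, rfl, h⟩ | ⟨rfl, rfl, rfl, h⟩) | ⟨rfl, rfl, rfl⟩
  · omega
  · simp [ok] at hw
    omega
  · simp [ok] at hw
    omega
  · omega

theorem nb19 {i j : ℕ} {w : Lb}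
    (h : (GG D).Adj (i, j, 19) w) : w = bt D i j ∨ w = (i, j, 18) ∨ w = (i, j, 20) := by
  obtain ⟨i', j', t'⟩ := w
  rw [adj_iff'] at h
  rw [bt]
  obtain ⟨-, hw, h⟩ := h
  simp [pats, cnd] at h
  rcases h with (⟨rfl, rfl, rfl⟩ | ⟨rfl, rfl, rfl, h⟩ | ⟨rfl, rfl, rfl, h⟩ | ⟨rfl, rfl, rfl⟩) |
    ⟨rfl, rfl, rfl⟩ | ⟨rfl, rfl, rfl⟩ | ⟨rfl, rfl, rfl⟩
  · simp
  · left
    simp [ok] at hw
    rw [if_neg (by omega), eq_it]
    omega
  · left
    simp [ok] at hw
    rw [if_neg (by omega), eq_it]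
    omega
  · left
    simp [ok] at hw
    rw [if_pos (by omega)]
    simp only [Prod.mk.injEq, true_and, and_true]
    omega
  · simp
  · left
    simp [ok] at hw
    rw [if_pos (by omega)]
    simp only [Prod.mk.injEq, true_and, and_true]
    omega
  · left
    simp [ok] at hw
    rw [if_pos (by omega)]
    simp only [Prod.mk.injEq, true_and, and_true]
    omega

theorem nb28 {i j : ℕ} {w : Lb}
    (h : (GG D).Adj (i, j, 28) w) : w = lf D i j ∨ w = (i, j, 25) ∨ w = (i, j, 27) := by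
  obtain ⟨i', j', t'⟩ := w
  rw [adj_iff'] at h
  rw [lf]
  obtain ⟨-, hw, h⟩ := h
  simp [pats, cnd] at h
  rcases h with ⟨rfl, rfl, rfl⟩ | ⟨rfl, rfl, rfl⟩ | ⟨rfl, rfl, rfl⟩ | ⟨rfl, rfl, rfl, h⟩ |
    ⟨rfl, rfl, rfl, h⟩ | ⟨rfl, rfl, rfl⟩ | ⟨rfl, rfl, rfl⟩
  · left
    simp [ok] at hw
    rw [if_pos (by omega)]
    simp only [Prod.mk.injEq, and_true]
    omega
  · simp
  · simp
  · left
    simp [ok] at hw
    rw [if_neg (by omega), eq_ro, Nat.add_sub_cancel]
    omega
  · left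
    simp [ok] at hw
    rw [if_neg (by omega), eq_ro, Nat.add_sub_cancel]
    omega
  · left
    simp [ok] at hw
    rw [if_pos (by omega)]
    simp only [Prod.mk.injEq, true_and, and_true]
    omega
  · left
    simp [ok] at hw
    rw [if_pos (by omega)]
    simp only [Prod.mk.injEq, true_and, and_true]
    omega

theorem nb29 {i j : ℕ} {w : Lb}
    (h : (GG D).Adj (i, j, 29) w) : w = tp D i j ∨ w = (i, j, 13) ∨ w = (i, j, 27) := by
  obtain ⟨i', j', t'⟩ := w
  rw [adj_iff'] at h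
  rw [tp, eq_bo]
  simp only [Prod.mk.injEq]
  obtain ⟨-, hw, h⟩ := h
  simp [pats, cnd] at h
  rcases h with ⟨rfl, rfl, rfl⟩ | ⟨rfl, rfl, rfl⟩ | ⟨rfl, rfl, rfl, h⟩ | ⟨rfl, rfl, rfl, h⟩
  · simp
  · simp
  · simp [ok] at hw
    rw [Nat.add_sub_cancel]
    omega
  · simp [ok] at hw
    rw [Nat.add_sub_cancel]
    omega

theorem nb33 (hD : D.Good) {i j : ℕ} (hok : ok D (i, j, 33)) {w : Lb}
    (h : (GG D).Adj (i, j, 33) w) :
    w = (if j < D.pi i then rt D i j else bt D i j) ∨ w = (i, j, 31) ∨ w = (i, j, 34) := by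
  obtain ⟨i', j', t'⟩ := w
  rw [adj_iff'] at h
  obtain ⟨-, hw, h⟩ := h
  simp [pats, cnd] at h
  simp [ok] at hok
  have h1 := hD.pi_rho j (by omega)
  have h2 := hD.rho_lt j (by omega)
  have h3 : D.rho j = i → D.pi (D.rho j) = D.pi i := cong1 D.pi
  rcases h with (⟨rfl, rfl, rfl⟩ | ⟨rfl, rfl, rfl, h⟩ | ⟨rfl, rfl, rfl, h⟩ | ⟨rfl, rfl, rfl, h⟩ |
    ⟨rfl, rfl, rfl, h⟩ | ⟨rfl, rfl, rfl⟩) | ⟨rfl, rfl, rfl⟩ | ⟨rfl, rfl, rfl⟩ | ⟨rfl, rfl, rfl⟩
  · simp
  · left
    simp [ok] at hw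
    rw [if_pos h, rt, eq_il]
    omega
  · left
    simp [ok] at hw
    rw [if_pos h, rt, eq_il]
    omega
  · left
    simp [ok] at hw
    rw [if_neg (by omega), bt, if_neg (by omega), eq_it]
    omega
  · left
    simp [ok] at hw
    rw [if_neg (by omega), bt, if_neg (by omega), eq_it]
    omega
  · left
    simp [ok] at hw
    rw [if_neg (by omega), bt, if_pos (by omega)]
    simp only [Prod.mk.injEq, true_and, and_true]
    omega
  · simp
  · left
    simp [ok] at hw
    rw [if_neg (by omega), bt, if_pos (by omega)]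
    simp only [Prod.mk.injEq, true_and, and_true]
    omega
  · left
    simp [ok] at hw
    rw [if_neg (by omega), bt, if_pos (by omega)]
    simp only [Prod.mk.injEq, true_and, and_true]
    omega

theorem nb40 {i j : ℕ} (hok : ok D (i, j, 40)) {w : Lb}
    (h : (GG D).Adj (i, j, 40) w) :
    w = (if j ≤ D.pi i then lf D i j else tp D i j) ∨ w = (i, j, 32) ∨ w = (i, j, 39) := by
  obtain ⟨i', j', t'⟩ := w
  rw [adj_iff'] at h
  obtain ⟨-, hw, h⟩ := h
  simp [pats, cnd] at h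
  simp [ok] at hok
  rcases h with ⟨rfl, rfl, rfl⟩ | ⟨rfl, rfl, rfl⟩ | ⟨rfl, rfl, rfl⟩ | ⟨rfl, rfl, rfl, h⟩ |
    ⟨rfl, rfl, rfl, h⟩ | ⟨rfl, rfl, rfl, h⟩ | ⟨rfl, rfl, rfl, h⟩ | ⟨rfl, rfl, rfl⟩ |
    ⟨rfl, rfl, rfl⟩
  · left
    simp [ok] at hw
    rw [if_pos (by omega), lf, if_pos (by omega)]
    simp only [Prod.mk.injEq, true_and, and_true]
    omega
  · simp
  · simp
  · left
    simp [ok] at hw
    rw [if_pos (by omega), lf, if_neg (by omega), eq_ro, Nat.add_sub_cancel]
    omega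
  · left
    simp [ok] at hw
    rw [if_pos (by omega), lf, if_neg (by omega), eq_ro, Nat.add_sub_cancel]
    omega
  · left
    simp [ok] at hw
    rw [if_neg (by omega), tp, eq_bo, Nat.add_sub_cancel]
    omega
  · left
    simp [ok] at hw
    rw [if_neg (by omega), tp, eq_bo, Nat.add_sub_cancel]
    omega
  · left
    simp [ok] at hw
    rw [if_pos (by omega), lf, if_pos (by omega)]
    simp only [Prod.mk.injEq, true_and, and_true]
    omega
  · left
    simp [ok] at hw
    rw [if_pos (by omega), lf, if_pos (by omega)]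
    simp only [Prod.mk.injEq, true_and, and_true]
    omega

theorem nb42 {i j : ℕ} (hok : ok D (i, j, 42)) {w : Lb}
    (h : (GG D).Adj (i, j, 42) w) :
    w = il D (i - 1) 0 ∨ w = il D i 0 ∨ w = il D (i + 1) 0 := by
  obtain ⟨i', j', t'⟩ := w
  rw [adj_iff'] at h
  obtain ⟨-, hw, h⟩ := h
  simp [pats, cnd] at h
  simp [ok] at hok
  obtain ⟨rfl, hok⟩ := hok
  rw [eq_il, eq_il, eq_il]
  rcases h with (⟨rfl, rfl, rfl⟩ | ⟨rfl, rfl, rfl⟩ | ⟨rfl, rfl, rfl⟩ | ⟨rfl, rfl, rfl⟩) |
    ⟨rfl, rfl, rfl⟩ | ⟨rfl, rfl, rfl⟩ <;>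
  · simp [ok] at hw
    omega

theorem nb43 {i j : ℕ} {w : Lb} (h : (GG D).Adj (i, j, 43) w) :
    w = bo D i (j - 1) ∨ w = bo D i j ∨ w = bo D i (j + 1) := by
  obtain ⟨i', j', t'⟩ := w
  rw [adj_iff'] at h
  obtain ⟨-, hw, h⟩ := h
  simp [pats, cnd] at h
  rw [eq_bo, eq_bo, eq_bo]
  rcases h with (⟨rfl, rfl, rfl⟩ | ⟨rfl, rfl, rfl⟩ | ⟨rfl, rfl, rfl⟩ | ⟨rfl, rfl, rfl⟩) |
    ⟨rfl, rfl, rfl⟩ | ⟨rfl, rfl, rfl⟩
  · simp [ok] at hw
    omega
  · simp [ok] at hw
    omega
  · simp [ok] at hw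
    omega
  · simp [ok] at hw
    omega
  · simp [ok] at hw
    rw [Nat.add_sub_cancel]
    omega
  · simp [ok] at hw
    rw [Nat.add_sub_cancel]
    omega

theorem a_rt (hD : D.Good) {i j : ℕ} (hi : i < D.N) (hj : j < D.pi i) :
    (GG D).Adj (ro D i j) (rt D i j) := adj_ro_il hD hi hj

theorem a_bt (hD : D.Good) {i j : ℕ} (hi : i < D.N) (hj : j < D.N) (h : D.rho j ≤ i) :
    (GG D).Adj (bo D i j) (bt D i j) := by
  unfold bt
  split_ifs with hN
  · obtain rfl : i = D.N - 1 := by omega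
    exact (adj_bottom hD hj).symm
  · exact adj_bo_it hD (by omega) hj h

theorem a_lf (hD : D.Good) {i j : ℕ} (hi : i < D.N) (hj : j ≤ D.pi i) :
    (GG D).Adj (il D i j) (lf D i j) := by
  unfold lf
  split_ifs with h0
  · subst h0
    exact (adj_left hD hi).symm
  · obtain ⟨k, rfl⟩ : ∃ k, j = k + 1 := ⟨j - 1, by omega⟩
    rw [Nat.add_sub_cancel]
    exact (adj_ro_il hD hi (by omega)).symm

theorem a_tp (hD : D.Good) {i j : ℕ} (hi : i < D.N) (hj : j < D.N) (h : D.rho j < i) :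
    (GG D).Adj (it D i j) (tp D i j) := by
  unfold tp
  obtain ⟨k, rfl⟩ : ∃ k, i = k + 1 := ⟨i - 1, by omega⟩
  rw [Nat.add_sub_cancel]
  exact (adj_bo_it hD (by omega) hj (by omega)).symm

theorem a_ext (hD : D.Good) {i j t : ℕ} (hok : ok D (i, j, t)) (ht : isPort t = true) :
    (GG D).Adj (i, j, t) (ext D i j t) := by
  have ht' : t = 7 ∨ t = 19 ∨ t = 28 ∨ t = 29 ∨ t = 33 ∨ t = 40 := by
    unfold isPort at ht
    simpa [or_assoc] using ht
  rcases ht' with rfl | rfl | rfl | rfl | rfl | rfl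
  · simp [ok] at hok
    obtain ⟨h1, h2, h3, h4⟩ := hok
    have h5 := hD.rho_pi i h1
    have h6 : D.pi i = j → D.rho (D.pi i) = D.rho j := cong1 D.rho
    have e : ro D i j = (i, j, 7) := by rw [ro, if_pos h4]
    rw [← e]
    exact a_rt hD h1 (by omega)
  · simp [ok] at hok
    obtain ⟨h1, h2, h3, h4⟩ := hok
    have e : bo D i j = (i, j, 19) := by rw [bo, if_pos ⟨h4, h3⟩]
    rw [← e]
    exact a_bt hD h1 h2 h4.le
  · simp [ok] at hok
    obtain ⟨h1, h2, h3, h4⟩ := hok
    have e : il D i j = (i, j, 28) := by rw [il, if_pos h4]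
    rw [← e]
    exact a_lf hD h1 h3
  · simp [ok] at hok
    obtain ⟨h1, h2, h3, h4⟩ := hok
    have e : it D i j = (i, j, 29) := by rw [it, if_pos h3]
    rw [← e]
    exact a_tp hD h1 h2 h4
  · simp [ok] at hok
    obtain ⟨h1, h2, h3⟩ := hok
    have h5 := hD.pi_rho j h2
    have h6 : D.rho j = i → D.pi (D.rho j) = D.pi i := cong1 D.pi
    have h7 := hD.rho_pi i h1
    have h8 : D.pi i = j → D.rho (D.pi i) = D.rho j := cong1 D.rho
    show (GG D).Adj (i, j, 33) (if j < D.pi i then rt D i j else bt D i j)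
    split_ifs with h4
    · have e : ro D i j = (i, j, 33) := by rw [ro, if_neg (by omega)]
      rw [← e]
      exact a_rt hD h1 h4
    · have e : bo D i j = (i, j, 33) := by rw [bo, if_neg (by omega)]
      rw [← e]
      exact a_bt hD h1 h2 (by omega)
  · simp [ok] at hok
    obtain ⟨h1, h2, h3⟩ := hok
    show (GG D).Adj (i, j, 40) (if j ≤ D.pi i then lf D i j else tp D i j)
    split_ifs with h4
    · have e : il D i j = (i, j, 40) := by rw [il, if_neg (by omega)]
      rw [← e]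
      exact a_lf hD h1 h4
    · have e : it D i j = (i, j, 40) := by rw [it, if_neg (by omega)]
      rw [← e]
      exact a_tp hD h1 h2 (by omega)

theorem ok_lt {v : Lb} (h : ok D v) : v.2.2 < 44 := by
  unfold ok at h
  omega

/-- the neighbours of a vertex -/
theorem adj_nbs (hD : D.Good) {v : Lb} (hok : ok D v) (w : Lb) :
    (GG D).Adj v w ↔ w ∈ nbs D v := by
  obtain ⟨i, j, t⟩ := v
  have ht := ok_lt hok
  have h9 := hD.mod3
  unfold nbs
  dsimp only at ht ⊢
  split_ifs with h42 h43 hp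
  · subst h42
    constructor
    · intro h
      simpa using nb42 hok h
    · intro h
      simp only [List.mem_cons, List.not_mem_nil, or_false] at h
      have hok' := hok
      simp [ok] at hok'
      obtain ⟨rfl, h1, h2⟩ := hok'
      rcases h with rfl | rfl | rfl
      · have h3 := adj_left hD (i := i - 1) (by omega)
        rwa [show 3 * ((i - 1) / 3) + 1 = i by omega] at h3
      · have h3 := adj_left hD (i := i) (by omega)
        rwa [show 3 * (i / 3) + 1 = i by omega] at h3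
      · have h3 := adj_left hD (i := i + 1) (by omega)
        rwa [show 3 * ((i + 1) / 3) + 1 = i by omega] at h3
  · subst h43
    constructor
    · intro h
      simpa using nb43 h
    · intro h
      simp only [List.mem_cons, List.not_mem_nil, or_false] at h
      have hok' := hok
      simp [ok] at hok'
      obtain ⟨h1, h2, h3⟩ := hok'
      obtain rfl : i = D.N - 1 := by omega
      rcases h with rfl | rfl | rfl
      · have h3 := adj_bottom hD (j := j - 1) (by omega)
        rwa [show 3 * ((j - 1) / 3) + 1 = j by omega] at h3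
      · have h3 := adj_bottom hD (j := j) (by omega)
        rwa [show 3 * (j / 3) + 1 = j by omega] at h3
      · have h3 := adj_bottom hD (j := j + 1) (by omega)
        rwa [show 3 * ((j + 1) / 3) + 1 = j by omega] at h3
  · rw [List.mem_cons, List.mem_map]
    constructor
    · intro h
      have ht' : t = 7 ∨ t = 19 ∨ t = 28 ∨ t = 29 ∨ t = 33 ∨ t = 40 := by
        unfold isPort at hp
        simpa [or_assoc] using hp
      rcases ht' with rfl | rfl | rfl | rfl | rfl | rfl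
      · rcases nb7 h with h | h | h
        · exact Or.inl h
        · exact Or.inr ⟨6, by decide, h.symm⟩
        · exact Or.inr ⟨8, by decide, h.symm⟩
      · rcases nb19 h with h | h | h
        · exact Or.inl h
        · exact Or.inr ⟨18, by decide, h.symm⟩
        · exact Or.inr ⟨20, by decide, h.symm⟩
      · rcases nb28 h with h | h | h
        · exact Or.inl h
        · exact Or.inr ⟨25, by decide, h.symm⟩
        · exact Or.inr ⟨27, by decide, h.symm⟩
      · rcases nb29 h with h | h | h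
        · exact Or.inl h
        · exact Or.inr ⟨13, by decide, h.symm⟩
        · exact Or.inr ⟨27, by decide, h.symm⟩
      · rcases nb33 hD hok h with h | h | h
        · exact Or.inl h
        · exact Or.inr ⟨31, by decide, h.symm⟩
        · exact Or.inr ⟨34, by decide, h.symm⟩
      · rcases nb40 hok h with h | h | h
        · exact Or.inl h
        · exact Or.inr ⟨32, by decide, h.symm⟩
        · exact Or.inr ⟨39, by decide, h.symm⟩
    · rintro (rfl | ⟨s, hs, rfl⟩)
      · exact a_ext hD hok hp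
      · exact adj_cell hok (by omega) hs
  · rw [Bool.not_eq_true] at hp
    exact adj_int (by omega) hp hok w

end Pool.Agent.J4.H63.OP
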