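import Pool.Agent.J4.H63.OP.Transfer
import Pool.Agent.J4.H63.OP.Plane2
import Pool.Agent.H671R2.PolyAuto
import Pool.Agent.H673R2.HardOn

/-!
# The reduction
-/

set_option autoImplicit false

namespace Pool.Agent.J4.H63.OP

open Pool.Agent.NPC Pool.Agent.NPC.R671 Pool.Agent.R544

/-- the wire of the column `j` comes from a row above the row `i` -/
def vinB (φ : N3) (i j : ℕ) : Bool :=
  (List.range (36 * φ.length)).any (fun k => decide (k < i) && decide (pif φ k = j))

theorem vinB_iff {φ : N3} {i j : ℕ} (hj : j < 36 * φ.length) :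
    vinB φ i j = true ↔ rhof φ j < i := by
  unfold vinB
  rw [List.any_eq_true]
  constructor
  · rintro ⟨k, hk, h⟩
    rw [List.mem_range] at hk
    simp only [Bool.and_eq_true, decide_eq_true_eq] at h
    rw [rhof_eq hk h.2]
    exact h.1
  · intro h
    obtain ⟨h1, h2⟩ := rhof_spec hj
    exact ⟨_, List.mem_range.2 h1, by simp [h, h2]⟩

/-- the existence of a vertex -/
def okB (φ : N3) (v : Lb) : Bool :=
  decide (v.1 < 36 * φ.length) && decide (v.2.1 < 36 * φ.length) &&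
  ((decide (v.2.2 < 30) && (decide (v.2.1 ≤ pif φ v.1) && vinB φ v.1 v.2.1)) ||
  ((decide (30 ≤ v.2.2) && decide (v.2.2 < 42)) &&
    ((decide (v.2.1 ≤ pif φ v.1) && !(vinB φ v.1 v.2.1)) ||
      (decide (pif φ v.1 < v.2.1) && vinB φ v.1 v.2.1))) ||
  (decide (v.2.2 = 42) && (decide (v.2.1 = 0) && decide (v.1 % 3 = 1))) ||
  (decide (v.2.2 = 43) && (decide (v.1 + 1 = 36 * φ.length) && decide (v.2.1 % 3 = 1))))

theorem okB_iff (φ : N3) (v : Lb) : okB φ v = true ↔ ok (net φ) v := by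
  obtain ⟨i, j, t⟩ := v
  unfold okB ok
  show _ ↔ ((t < 30 ∧ i < 36 * φ.length ∧ j < 36 * φ.length ∧ j ≤ pif φ i ∧ rhof φ j < i) ∨
    (30 ≤ t ∧ t < 42 ∧ i < 36 * φ.length ∧ j < 36 * φ.length ∧
      ((j ≤ pif φ i ∧ i ≤ rhof φ j) ∨ (pif φ i < j ∧ rhof φ j < i))) ∨
    (t = 42 ∧ j = 0 ∧ i < 36 * φ.length ∧ i % 3 = 1) ∨
    (t = 43 ∧ i + 1 = 36 * φ.length ∧ j < 36 * φ.length ∧ j % 3 = 1))
  by_cases hj : j < 36 * φ.length
  · have h := vinB_iff (i := i) hj
    by_cases hv : vinB φ i j = true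
    · have h1 := h.1 hv
      simp only [hv, Bool.and_eq_true, Bool.or_eq_true, decide_eq_true_eq, Bool.not_true,
        and_true, Bool.and_false, Bool.false_eq_true, false_or, Bool.and_true]
      omega
    · have h1 : ¬ rhof φ j < i := fun h2 => hv (h.2 h2)
      rw [Bool.not_eq_true] at hv
      simp only [hv, Bool.and_eq_true, Bool.or_eq_true, decide_eq_true_eq, Bool.not_false,
        and_true, Bool.and_false, Bool.false_eq_true, or_false, false_or, Bool.and_true]
      omega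
  · simp only [Bool.and_eq_true, Bool.or_eq_true, decide_eq_true_eq]
    omega

/-- the condition of a kind of edges -/
def cndB (φ : N3) (k : ℕ) (v : Lb) : Bool :=
  decide (k = 0) || (decide (k = 1) && decide (v.2.1 < pif φ v.1)) ||
    (decide (k = 2) && vinB φ (v.1 + 1) v.2.1)

theorem cndB_iff {φ : N3} {k : ℕ} {v : Lb} (hj : v.2.1 < 36 * φ.length) :
    cndB φ k v = true ↔ cnd (net φ) k v := by
  unfold cndB cnd
  simp only [Bool.or_eq_true, Bool.and_eq_true, decide_eq_true_eq, vinB_iff hj]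
  show (k = 0 ∨ k = 1 ∧ v.2.1 < pif φ v.1) ∨ k = 2 ∧ rhof φ v.2.1 < v.1 + 1 ↔
    k = 0 ∨ k = 1 ∧ v.2.1 < pif φ v.1 ∨ k = 2 ∧ rhof φ v.2.1 ≤ v.1
  rw [Nat.lt_succ_iff, or_assoc]

/-- the edges, oriented -/
def e0B (φ : N3) (v w : Lb) : Bool :=
  pats.any (fun p => decide (v.2.2 = p.1) && decide (w.2.2 = p.2.1) &&
    decide (w.1 = v.1 + p.2.2.1) && decide (w.2.1 = v.2.1 + p.2.2.2.1) && cndB φ p.2.2.2.2 v)

theorem ok_col {φ : N3} {v : Lb} (h : ok (net φ) v) : v.2.1 < 36 * φ.length := by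
  obtain ⟨i, j, t⟩ := v
  have h' : ((t < 30 ∧ i < 36 * φ.length ∧ j < 36 * φ.length ∧ j ≤ pif φ i ∧ rhof φ j < i) ∨
    (30 ≤ t ∧ t < 42 ∧ i < 36 * φ.length ∧ j < 36 * φ.length ∧
      ((j ≤ pif φ i ∧ i ≤ rhof φ j) ∨ (pif φ i < j ∧ rhof φ j < i))) ∨
    (t = 42 ∧ j = 0 ∧ i < 36 * φ.length ∧ i % 3 = 1) ∨
    (t = 43 ∧ i + 1 = 36 * φ.length ∧ j < 36 * φ.length ∧ j % 3 = 1)) := h
  show j < 36 * φ.length
  omega

theorem e0B_iff {φ : N3} {v w : Lb} (hv : ok (net φ) v) :
    e0B φ v w = true ↔ E0 (net φ) v w := by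
  unfold e0B E0
  rw [List.any_eq_true]
  simp only [Bool.and_eq_true, decide_eq_true_eq, and_assoc, cndB_iff (ok_col hv)]

/-- adjacency -/
def adB (φ : N3) (v w : Lb) : Bool :=
  okB φ v && okB φ w && (e0B φ v w || e0B φ w v)

theorem adB_iff (φ : N3) (v w : Lb) : adB φ v w = true ↔ (GG (net φ)).Adj v w := by
  unfold adB
  rw [Bool.and_eq_true, Bool.and_eq_true, Bool.or_eq_true, okB_iff, okB_iff]
  constructor
  · rintro ⟨⟨h1, h2⟩, h3⟩
    rw [e0B_iff h1, e0B_iff h2] at h3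
    exact ⟨h1, h2, h3⟩
  · rintro ⟨h1, h2, h3⟩
    rw [e0B_iff h1, e0B_iff h2]
    exact ⟨⟨h1, h2⟩, h3⟩

/-- the vertices -/
def vs (φ : N3) : List Lb :=
  ((List.range (36 * φ.length)) ×ˢ ((List.range (36 * φ.length)) ×ˢ (List.range 44))).filter
    (okB φ)

theorem vs_nodup (φ : N3) : (vs φ).Nodup := by
  unfold vs
  apply List.Nodup.filter
  exact List.Nodup.product List.nodup_range (List.Nodup.product List.nodup_range List.nodup_range)

theorem mem_vs {φ : N3} {v : Lb} : v ∈ vs φ ↔ ok (net φ) v := by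
  have hc := fun h : ok (net φ) v => ok_col h
  have ht := fun h : ok (net φ) v => ok_lt h
  have hr : ok (net φ) v → v.1 < 36 * φ.length := by
    obtain ⟨i, j, t⟩ := v
    intro h
    have h' : ((t < 30 ∧ i < 36 * φ.length ∧ j < 36 * φ.length ∧ j ≤ pif φ i ∧ rhof φ j < i) ∨
      (30 ≤ t ∧ t < 42 ∧ i < 36 * φ.length ∧ j < 36 * φ.length ∧
        ((j ≤ pif φ i ∧ i ≤ rhof φ j) ∨ (pif φ i < j ∧ rhof φ j < i))) ∨
      (t = 42 ∧ j = 0 ∧ i < 36 * φ.length ∧ i % 3 = 1) ∨
      (t = 43 ∧ i + 1 = 36 * φ.length ∧ j < 36 * φ.length ∧ j % 3 = 1)) := h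
    show i < 36 * φ.length
    omega
  obtain ⟨i, j, t⟩ := v
  unfold vs
  rw [List.mem_filter, okB_iff, List.mem_product, List.mem_product, List.mem_range, List.mem_range,
    List.mem_range]
  exact ⟨fun h => h.2, fun h => ⟨⟨hr h, hc h, ht h⟩, h⟩⟩

/-- the graph of the reduction -/
noncomputable def redG (φ : N3) : SimpleGraph (Fin (vs φ).length) :=
  (GG (net φ)).comap (fun i => (vs φ)[i])

theorem vs_inj (φ : N3) : Function.Injective (fun i : Fin (vs φ).length => (vs φ)[i]) := by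
  intro i j h
  exact Fin.ext ((List.Nodup.getElem_inj_iff (vs_nodup φ)).1 h)

theorem vs_ok (φ : N3) (i : Fin (vs φ).length) : ok (net φ) (vs φ)[i] :=
  mem_vs.1 (List.getElem_mem _)

theorem exists_vs {φ : N3} {v : Lb} (h : ok (net φ) v) :
    ∃ i : Fin (vs φ).length, (vs φ)[i] = v := by
  obtain ⟨i, hi, h1⟩ := List.getElem_of_mem (mem_vs.2 h)
  exact ⟨⟨i, hi⟩, h1⟩

theorem redG_planar (φ : N3) : Pool.Agent.Z85.LMD.IsPlanar (redG φ) :=
  planar_comap (vs_inj φ) (vs_ok φ)

theorem redG_cubic (φ : N3) : IsCubic (redG φ) :=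
  cubic_comap (net_good φ) (vs_inj φ) (vs_ok φ) (fun _ h => exists_vs h)

theorem redG_bip (φ : N3) : (redG φ).IsBipartite := bip_comap

theorem redG_iff (φ : N3) : P13 φ ↔ ∃ S : Finset (Fin (vs φ).length),
    IsOpenPacking (redG φ) S ∧ ((vs φ).length + 2) / 3 ≤ S.card := by
  have h := pack_perf (net_good φ) (vs_inj φ) (vs_ok φ) (fun _ h => exists_vs h)
  rw [Fintype.card_fin] at h
  rw [← perf_iff]
  exact h.symm

theorem vs_pos {φ : N3} (hne : φ ≠ []) : 0 < (vs φ).length := by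
  have hm : 1 ≤ φ.length := List.length_pos_iff.2 hne
  have h : ok (net φ) (1, 0, 42) := by
    refine Or.inr (Or.inr (Or.inl ⟨rfl, rfl, ?_, rfl⟩))
    show 1 < 36 * φ.length
    omega
  exact List.length_pos_of_mem (mem_vs.2 h)

/-! ### Polynomial time -/

theorem redG_matrix (φ : N3) :
    adjMatrix (redG φ) = (vs φ).map (fun u => (vs φ).map (fun w => adB φ u w)) := by
  classical
  unfold adjMatrix
  apply List.ext_getElem
  · simp
  · intro i h1 h2
    simp only [List.getElem_ofFn, List.getElem_map]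
    apply List.ext_getElem
    · simp
    · intro j h3 h4
      simp only [List.getElem_ofFn, List.getElem_map]
      rw [Bool.eq_iff_iff, decide_eq_true_eq, adB_iff]
      rfl

theorem poly_nx {α : Type} [TEnc α] {φ : α → N3} {o : α → ℕ} (hφ : Poly φ) (ho : Poly o) :
    Poly (fun a => nx (φ a) (o a)) := by
  unfold nx oc
  have hn : UPoly (fun a => 3 * (φ a).length) := UPoly.mul (UPoly.const 3) (UPoly.length hφ)
  have h1 : Poly (fun a => (List.range (3 * (φ a).length)).filter (fun p =>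
      decide (ov (φ a) p = ov (φ a) (o a)) && decide (o a < p))) :=
    NPC.Poly.filter (p := fun (a : α) (p : ℕ) =>
      decide (ov (φ a) p = ov (φ a) (o a)) && decide (o a < p)) hn.range (by fun_prop)
  have h2 : Poly (fun a => (List.range (3 * (φ a).length)).filter (fun p =>
      decide (ov (φ a) p = ov (φ a) (o a)))) :=
    NPC.Poly.filter (p := fun (a : α) (p : ℕ) =>
      decide (ov (φ a) p = ov (φ a) (o a))) hn.range (by fun_prop)
  fun_prop

attribute [local fun_prop] poly_nx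

theorem poly_pif {α : Type} [TEnc α] {φ : α → N3} {i : α → ℕ} (hφ : Poly φ) (hi : Poly i) :
    Poly (fun a => pif (φ a) (i a)) := by
  unfold pif
  fun_prop

attribute [local fun_prop] poly_pif

theorem poly_vinB {α : Type} [TEnc α] {φ : α → N3} {i j : α → ℕ} (hφ : Poly φ) (hi : Poly i)
    (hj : Poly j) : Poly (fun a => vinB (φ a) (i a) (j a)) := by
  unfold vinB
  have hn : UPoly (fun a => 36 * (φ a).length) := UPoly.mul (UPoly.const 36) (UPoly.length hφ)
  exact NPC.Poly.any (p := fun (a : α) (k : ℕ) =>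
    decide (k < i a) && decide (pif (φ a) k = j a)) hn.range (by fun_prop)

attribute [local fun_prop] poly_vinB

theorem poly_okB {α : Type} [TEnc α] {φ : α → N3} {v : α → Lb} (hφ : Poly φ) (hv : Poly v) :
    Poly (fun a => okB (φ a) (v a)) := by
  unfold okB
  fun_prop

attribute [local fun_prop] poly_okB

theorem poly_cndB {α : Type} [TEnc α] {φ : α → N3} {k : α → ℕ} {v : α → Lb} (hφ : Poly φ)
    (hk : Poly k) (hv : Poly v) : Poly (fun a => cndB (φ a) (k a) (v a)) := by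
  unfold cndB
  fun_prop

attribute [local fun_prop] poly_cndB

theorem poly_e0B {α : Type} [TEnc α] {φ : α → N3} {v w : α → Lb} (hφ : Poly φ) (hv : Poly v)
    (hw : Poly w) : Poly (fun a => e0B (φ a) (v a) (w a)) := by
  unfold e0B
  exact NPC.Poly.any (p := fun (a : α) (p : ℕ × ℕ × ℕ × ℕ × ℕ) =>
    decide ((v a).2.2 = p.1) && decide ((w a).2.2 = p.2.1) &&
    decide ((w a).1 = (v a).1 + p.2.2.1) && decide ((w a).2.1 = (v a).2.1 + p.2.2.2.1) &&
    cndB (φ a) p.2.2.2.2 (v a)) (NPC.Poly.const _) (by fun_prop)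

attribute [local fun_prop] poly_e0B

theorem poly_adB {α : Type} [TEnc α] {φ : α → N3} {v w : α → Lb} (hφ : Poly φ) (hv : Poly v)
    (hw : Poly w) : Poly (fun a => adB (φ a) (v a) (w a)) := by
  unfold adB
  fun_prop

theorem poly_vs : Poly vs := by
  unfold vs
  have hn : UPoly (fun φ : N3 => 36 * φ.length) := UPoly.mul (UPoly.const 36) (UPoly.length Poly.id)
  exact NPC.Poly.filter (p := fun (φ : N3) (v : Lb) => okB φ v)
    (poly_product hn.range (poly_product hn.range (NPC.Poly.const _))) (by fun_prop)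

/-- the instance -/
noncomputable def inst (φ : N3) : List (List Bool) × ℕ :=
  (adjMatrix (redG φ), ((vs φ).length + 2) / 3)

theorem poly_inst : Poly inst := by
  have h0 : Poly (fun φ : N3 => (vs φ).map (fun u => (vs φ).map (fun w => adB φ u w))) := by
    have h1 : Poly (fun x : (N3 × Lb) × Lb => adB x.1.1 x.1.2 x.2) :=
      poly_adB (by fun_prop) (by fun_prop) (by fun_prop)
    have h2 : Poly (fun x : N3 × Lb => (vs x.1).map (fun w => adB x.1 x.2 w)) :=
      NPC.Poly.map (F := fun (x : N3 × Lb) (w : Lb) => adB x.1 x.2 w)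
        (poly_vs.comp (Poly.fst Poly.id)) h1
    exact NPC.Poly.map (F := fun (φ : N3) (u : Lb) => (vs φ).map (fun w => adB φ u w)) poly_vs h2
  have h1 : Poly (fun φ : N3 => ((vs φ).length + 2) / 3) := by
    have h2 : Poly (fun φ : N3 => (vs φ).length) := NPC.Poly.length poly_vs
    fun_prop
  refine (Poly.pair h0 h1).congr fun φ => ?_
  rw [inst, redG_matrix]

end Pool.Agent.J4.H63.OP
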