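import Pool.Agent.J4.H63.OP.Deg

/-!
# Perfect codes transmit values along the wires
-/

set_option autoImplicit false

namespace Pool.Agent.J4.H63.OP

variable {D : Net}

/-- exactly one neighbour of every vertex is selected -/
def Perf (D : Net) (s : Lb → ℕ) : Prop := ∀ v, ok D v → ((nbs D v).map s).sum = 1

theorem cross_cell {s : Lb → ℕ} (hs : Perf D s) {i j : ℕ} (hok : ok D (i, j, 0)) :
    s (ro D i j) = s (lf D i j) ∧ s (bo D i j) = s (tp D i j) := by
  have hk : ∀ t < 30, ok D (i, j, t) := fun t ht => ok_cell hok (by omega) (by omega) (by omega)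
  have e1 := hs _ (hk 1 (by omega))
  have e4 := hs _ (hk 4 (by omega))
  have e6 := hs _ (hk 6 (by omega))
  have e8 := hs _ (hk 8 (by omega))
  have e10 := hs _ (hk 10 (by omega))
  have e11 := hs _ (hk 11 (by omega))
  have e14 := hs _ (hk 14 (by omega))
  have e16 := hs _ (hk 16 (by omega))
  have e18 := hs _ (hk 18 (by omega))
  have e20 := hs _ (hk 20 (by omega))
  have e22 := hs _ (hk 22 (by omega))
  have e24 := hs _ (hk 24 (by omega))
  have e26 := hs _ (hk 26 (by omega))
  have e28 := hs _ (hk 28 (by omega))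
  have e29 := hs _ (hk 29 (by omega))
  simp [ok] at hok
  obtain ⟨h1, h2, h3, h4⟩ := hok
  have hro : ro D i j = (i, j, 7) := by rw [ro, if_pos h4]
  have hbo : bo D i j = (i, j, 19) := by rw [bo, if_pos ⟨h4, h3⟩]
  rw [hro, hbo]
  simp [nbs, adjl, isPort, ext] at e1 e4 e6 e8 e10 e11 e14 e16 e18 e20 e22 e24 e26 e28 e29
  omega

theorem pass_cell {s : Lb → ℕ} (hs : Perf D s) {i j : ℕ} (hok : ok D (i, j, 30)) :
    s (i, j, 33) = if j ≤ D.pi i then s (lf D i j) else s (tp D i j) := by
  have hk : ∀ t < 42, 30 ≤ t → ok D (i, j, t) :=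
    fun t ht ht' => ok_cell hok (by omega) (by omega) (by omega)
  have e31 := hs _ (hk 31 (by omega) (by omega))
  have e34 := hs _ (hk 34 (by omega) (by omega))
  have e36 := hs _ (hk 36 (by omega) (by omega))
  have e38 := hs _ (hk 38 (by omega) (by omega))
  have e40 := hs _ (hk 40 (by omega) (by omega))
  have e41 := hs _ (hk 41 (by omega) (by omega))
  simp [nbs, adjl, isPort, ext] at e31 e34 e36 e38 e40 e41
  rw [apply_ite s] at e40
  omega

/-- the value of the wire of the row `i` -/
def val (s : Lb → ℕ) (i : ℕ) : ℕ := s (3 * (i / 3) + 1, 0, 42)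

theorem cell_ro (hD : D.Good) {s : Lb → ℕ} (hs : Perf D s) {i j : ℕ} (hi : i < D.N)
    (hj : j < D.pi i) : s (ro D i j) = s (lf D i j) := by
  have h1 := hD.pi_lt i hi
  by_cases h : D.rho j < i
  · exact (cross_cell hs (by unfold ok; dsimp only; omega)).1
  · have h2 := pass_cell (i := i) (j := j) hs (by unfold ok; dsimp only; omega)
    rw [if_pos hj.le] at h2
    rw [ro, if_neg h, h2]

theorem cell_bo1 (hD : D.Good) {s : Lb → ℕ} (hs : Perf D s) {i j : ℕ} (hi : i < D.N)
    (hj : j = D.pi i) : s (bo D i j) = s (lf D i j) := by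
  have h1 := hD.pi_lt i hi
  have h3 := hD.rho_pi i hi
  subst hj
  have h2 := pass_cell (i := i) (j := D.pi i) hs (by unfold ok; dsimp only; omega)
  rw [if_pos le_rfl] at h2
  rw [bo, if_neg (by omega), h2]

theorem cell_bo2 {s : Lb → ℕ} (hs : Perf D s) {i j : ℕ} (hi : i < D.N)
    (hj : j < D.N) (h : D.rho j < i) : s (bo D i j) = s (tp D i j) := by
  by_cases h2 : j ≤ D.pi i
  · exact (cross_cell hs (by unfold ok; dsimp only; omega)).2
  · have h3 := pass_cell (i := i) (j := j) hs (by unfold ok; dsimp only; omega)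
    rw [if_neg h2] at h3
    rw [bo, if_neg (by omega), h3]

/-- the value on the row -/
theorem row_val (hD : D.Good) {s : Lb → ℕ} (hs : Perf D s) {i : ℕ} (hi : i < D.N) (j : ℕ)
    (hj : j ≤ D.pi i) : s (lf D i j) = val s i := by
  induction j with
  | zero => rw [lf, if_pos rfl, val]
  | succ k ih =>
    rw [lf, if_neg (by omega), Nat.add_sub_cancel, cell_ro hD hs hi (by omega)]
    exact ih (by omega)

/-- the value on the column -/
theorem col_val (hD : D.Good) {s : Lb → ℕ} (hs : Perf D s) {j : ℕ} (hj : j < D.N) (i : ℕ)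
    (hi : i < D.N) (hij : D.rho j ≤ i) : s (bo D i j) = val s (D.rho j) := by
  induction i with
  | zero =>
    have h1 : D.rho j = 0 := by omega
    have h2 := hD.pi_rho j hj
    rw [h1] at h2 ⊢
    rw [cell_bo1 hD hs hi h2.symm]
    exact row_val hD hs hi j (by omega)
  | succ k ih =>
    rcases Nat.lt_or_ge (D.rho j) (k + 1) with h | h
    · rw [cell_bo2 hs hi hj h, tp, Nat.add_sub_cancel]
      exact ih (by omega) (by omega)
    · have h1 : D.rho j = k + 1 := by omega
      have h2 := hD.pi_rho j hj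
      rw [h1] at h2 ⊢
      rw [cell_bo1 hD hs hi h2.symm]
      exact row_val hD hs hi j (by omega)

/-- the constraint at the bottom -/
theorem bottom_val (hD : D.Good) {s : Lb → ℕ} (hs : Perf D s) {b : ℕ} (hb : 3 * b < D.N) :
    val s (D.rho (3 * b)) + val s (D.rho (3 * b + 1)) + val s (D.rho (3 * b + 2)) = 1 := by
  have h9 := hD.mod3
  have h := hs (D.N - 1, 3 * b + 1, 43) (by unfold ok; dsimp only; omega)
  have r0 := hD.rho_lt (3 * b) hb
  have r1 := hD.rho_lt (3 * b + 1) (by omega)
  have r2 := hD.rho_lt (3 * b + 2) (by omega)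
  have c0 := col_val hD hs (j := 3 * b) (by omega) (D.N - 1) (by omega) (by omega)
  have c1 := col_val hD hs (j := 3 * b + 1) (by omega) (D.N - 1) (by omega) (by omega)
  have c2 := col_val hD hs (j := 3 * b + 2) (by omega) (D.N - 1) (by omega) (by omega)
  simp [nbs] at h
  rw [show 3 * b + 1 + 1 = 3 * b + 2 from rfl] at h
  rw [← c0, ← c1, ← c2]
  omega

end Pool.Agent.J4.H63.OP
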