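import Pool.Agent.J4.H63.OP.Net2
import Pool.Agent.J4.H63.OP.Defs

/-!
# From labels to `Fin n`
-/

set_option autoImplicit false

namespace Pool.Agent.J4.H63.OP

variable {D : Net} {U : Type} {ℓ : U → Lb}

theorem cubic_comap (hD : D.Good) (hinj : Function.Injective ℓ) (hok : ∀ i, ok D (ℓ i))
    (hall : ∀ v, ok D v → ∃ i, ℓ i = v) : IsCubic ((GG D).comap ℓ) := by
  classical
  intro i
  have h1 : ((GG D).comap ℓ).neighborSet i = ℓ ⁻¹' {w | w ∈ nbs D (ℓ i)} := by
    ext j
    show (GG D).Adj (ℓ i) (ℓ j) ↔ _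
    rw [adj_nbs hD (hok i)]
    rfl
  rw [h1, Set.ncard_preimage_of_injective_subset_range hinj]
  · have h2 : {w | w ∈ nbs D (ℓ i)} = ((nbs D (ℓ i)).toFinset : Set Lb) := by
      ext w
      simp
    rw [h2, Set.ncard_coe_finset, List.toFinset_card_of_nodup (nbs_nodup (hok i)),
      nbs_length (hok i)]
  · intro w hw
    obtain ⟨j, hj⟩ := hall w (nbs_ok hD (hok i) hw)
    exact ⟨j, hj⟩

theorem bip_comap : ((GG D).comap ℓ).IsBipartite := by
  refine ⟨SimpleGraph.Coloring.mk
    (fun i => if colr.getD (ℓ i).2.2 0 = 0 then (0 : Fin 2) else 1) ?_⟩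
  intro u v huv
  have h := col_adj huv
  split_ifs <;> first | omega | simp

theorem count_nbs [Fintype U] [DecidableEq U] (hD : D.Good) (hinj : Function.Injective ℓ)
    (hok : ∀ i, ok D (ℓ i)) (hall : ∀ v, ok D v → ∃ i, ℓ i = v)
    [DecidableRel ((GG D).comap ℓ).Adj] (S : Finset U) (s : Lb → ℕ)
    (hs : ∀ i, s (ℓ i) = if i ∈ S then 1 else 0) (i : U) :
    ((nbs D (ℓ i)).map s).sum = (S.filter (((GG D).comap ℓ).Adj i)).card := by
  classical
  rw [← List.sum_toFinset s (nbs_nodup (hok i))]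
  have h1 : (nbs D (ℓ i)).toFinset =
      (Finset.univ.filter (((GG D).comap ℓ).Adj i)).image ℓ := by
    ext w
    rw [List.mem_toFinset, Finset.mem_image]
    constructor
    · intro hw
      obtain ⟨j, hj⟩ := hall w (nbs_ok hD (hok i) hw)
      refine ⟨j, Finset.mem_filter.2 ⟨Finset.mem_univ _, ?_⟩, hj⟩
      show (GG D).Adj (ℓ i) (ℓ j)
      rw [hj, adj_nbs hD (hok i)]
      exact hw
    · rintro ⟨j, hj, rfl⟩
      exact (adj_nbs hD (hok i) _).1 (Finset.mem_filter.1 hj).2
  rw [h1, Finset.sum_image (fun a _ b _ h => hinj h)]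
  simp only [hs]
  rw [← Finset.sum_filter, Finset.sum_const, smul_eq_mul, mul_one]
  congr 1
  ext j
  simp [and_comm]

theorem perf_le (hD : D.Good) {s : Lb → ℕ} (hs : Perf D s) {v : Lb} (hv : ok D v) : s v ≤ 1 := by
  have h1 : 0 < (nbs D v).length := by
    rw [nbs_length hv]
    omega
  have h2 := List.getElem_mem h1
  have h3 := (adj_nbs hD hv _).2 h2
  have h4 := (adj_nbs hD h3.2.1 v).1 h3.symm
  have h5 := hs _ h3.2.1
  rw [← h5]
  exact List.le_sum_of_mem (List.mem_map_of_mem h4)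

/-- large open packings and perfect codes -/
theorem pack_perf [Fintype U] (hD : D.Good) (hinj : Function.Injective ℓ)
    (hok : ∀ i, ok D (ℓ i)) (hall : ∀ v, ok D v → ∃ i, ℓ i = v) :
    (∃ S : Finset U, IsOpenPacking ((GG D).comap ℓ) S ∧ (Fintype.card U + 2) / 3 ≤ S.card) ↔
      ∃ s : Lb → ℕ, Perf D s := by
  classical
  have h3 := cubic_comap hD hinj hok hall
  constructor
  · rintro ⟨S, hS⟩
    rw [pack_perfect _ h3] at hS
    refine ⟨fun w => if ∃ i ∈ S, ℓ i = w then 1 else 0, ?_⟩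
    intro v hv
    obtain ⟨i, rfl⟩ := hall v hv
    rw [count_nbs hD hinj hok hall S _ ?_ i]
    · exact hS i
    · intro j
      have : (∃ i ∈ S, ℓ i = ℓ j) ↔ j ∈ S := by
        constructor
        · rintro ⟨i, hi, h⟩
          rwa [← hinj h]
        · exact fun h => ⟨j, h, rfl⟩
      simp only [this]
  · rintro ⟨s, hs⟩
    refine ⟨Finset.univ.filter (fun i => s (ℓ i) = 1), ?_⟩
    rw [pack_perfect _ h3]
    intro i
    rw [← count_nbs hD hinj hok hall _ s ?_ i]
    · exact hs _ (hok i)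
    · intro j
      have := perf_le hD hs (hok j)
      simp only [Finset.mem_filter, Finset.mem_univ, true_and]
      split_ifs <;> omega

end Pool.Agent.J4.H63.OP
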