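import Pool.Agent.J4.H63.OP.Complete
import Pool.Agent.R544.P13

/-!
# The wires of an instance of monotone one-in-three satisfiability
-/

set_option autoImplicit false

namespace Pool.Agent.J4.H63.OP

open Pool.Agent.NPC Pool.Agent.R544 Pool.Agent.H958R2

/-- the number of occurrences -/
def oc (φ : N3) : ℕ := 3 * φ.length

/-- the next occurrence of the same variable (after the last one comes the first one) -/
def nx (φ : N3) (o : ℕ) : ℕ :=
  (((List.range (oc φ)).filter (fun p => decide (ov φ p = ov φ o) && decide (o < p))).head?).getD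
    ((((List.range (oc φ)).filter (fun p => decide (ov φ p = ov φ o))).head?).getD 0)

theorem head?_iff {n : ℕ} {p : ℕ → Bool} {a : ℕ} : ((List.range n).filter p).head? = some a ↔
    a < n ∧ p a = true ∧ ∀ b < a, p b = false := by
  rw [List.head?_filter, List.find?_range_eq_some]
  simp only [List.mem_range, Bool.not_eq_true']
  tauto

theorem head?_none {n : ℕ} {p : ℕ → Bool} : ((List.range n).filter p).head? = none ↔
    ∀ b < n, p b = false := by
  rw [List.head?_filter, List.find?_eq_none]
  simp only [List.mem_range, Bool.not_eq_true]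

/-- the description of the next occurrence -/
theorem nx_spec {φ : N3} {o : ℕ} (ho : o < oc φ) :
    nx φ o < oc φ ∧ ov φ (nx φ o) = ov φ o ∧
    ((o < nx φ o ∧ ∀ p, o < p → p < nx φ o → ov φ p ≠ ov φ o) ∨
      (nx φ o ≤ o ∧ (∀ p, o < p → p < oc φ → ov φ p ≠ ov φ o) ∧
        ∀ p < nx φ o, ov φ p ≠ ov φ o)) := by
  cases h : (((List.range (oc φ)).filter
      (fun p => decide (ov φ p = ov φ o) && decide (o < p))).head?) with
  | some a =>
    have e : nx φ o = a := by unfold nx; rw [h]; rfl
    rw [head?_iff] at h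
    simp only [Bool.and_eq_true, decide_eq_true_eq, Bool.and_eq_false_iff,
      decide_eq_false_iff_not] at h
    obtain ⟨h1, ⟨h2, h3⟩, h4⟩ := h
    rw [e]
    refine ⟨h1, h2, Or.inl ⟨h3, fun p hp hp' => ?_⟩⟩
    rcases h4 p hp' with h5 | h5
    · exact h5
    · exact absurd hp h5
  | none =>
    cases h' : (((List.range (oc φ)).filter (fun p => decide (ov φ p = ov φ o))).head?) with
    | none =>
      rw [head?_none] at h'
      have := h' o ho
      simp at this
    | some a =>
      have e : nx φ o = a := by unfold nx; rw [h, h']; rfl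
      rw [head?_iff] at h'
      rw [head?_none] at h
      simp only [Bool.and_eq_true, decide_eq_true_eq, Bool.and_eq_false_iff,
        decide_eq_false_iff_not] at h h'
      obtain ⟨h1, h2, h4⟩ := h'
      rw [e]
      refine ⟨h1, h2, Or.inr ⟨?_, fun p hp hp' => ?_, h4⟩⟩
      · by_contra hc
        exact h4 o (by omega) rfl
      · rcases h p hp' with h5 | h5
        · exact h5
        · exact absurd hp h5

theorem nx_inj {φ : N3} {o p : ℕ} (ho : o < oc φ) (hp : p < oc φ) (h : nx φ o = nx φ p) :
    o = p := by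
  obtain ⟨a1, a2, a3⟩ := nx_spec ho
  obtain ⟨b1, b2, b3⟩ := nx_spec hp
  rw [h] at a1 a2 a3
  have hv : ov φ o = ov φ p := a2.symm.trans b2
  rcases Nat.lt_trichotomy o p with h1 | h1 | h1
  · exfalso
    rcases a3 with ⟨a3, a4⟩ | ⟨a3, a4, a5⟩
    · rcases b3 with ⟨b3, b4⟩ | ⟨b3, b4, b5⟩
      · exact a4 p h1 b3 hv.symm
      · exact b5 o a3 hv
    · exact a4 p h1 hp hv.symm
  · exact h1
  · exfalso
    rcases b3 with ⟨b3, b4⟩ | ⟨b3, b4, b5⟩
    · rcases a3 with ⟨a3, a4⟩ | ⟨a3, a4, a5⟩
      · exact b4 o h1 a3 hv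
      · exact a5 p b3 hv.symm
    · exact b4 o h1 ho hv

/-- values which agree on next occurrences are equal on all occurrences of a variable -/
theorem nx_const {φ : N3} {f : ℕ → ℕ} (hf : ∀ o < oc φ, f (nx φ o) = f o) {o p : ℕ}
    (ho : o < oc φ) (hp : p < oc φ) (h : ov φ o = ov φ p) : f o = f p := by
  have key : ∀ k o, o < oc φ → o + k < oc φ → ov φ o = ov φ (o + k) → f o = f (o + k) := by
    intro k
    induction k using Nat.strong_induction_on with
    | _ k ih =>
      intro o ho hk hv
      rcases Nat.eq_zero_or_pos k with rfl | hk0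
      · rfl
      · obtain ⟨a1, a2, a3⟩ := nx_spec ho
        rcases a3 with ⟨a3, a4⟩ | ⟨a3, a4, a5⟩
        · have h1 : nx φ o ≤ o + k := by
            by_contra hc
            exact a4 (o + k) (by omega) (by omega) hv.symm
          obtain ⟨l, hl⟩ : ∃ l, o + k = nx φ o + l := ⟨o + k - nx φ o, by omega⟩
          rw [← hf o ho, hl]
          exact ih l (by omega) _ a1 (by omega) (by rw [a2, hv, hl])
        · exact absurd hv.symm (a4 (o + k) (by omega) hk)
  rcases Nat.le_total o p with h1 | h1
  · obtain ⟨k, rfl⟩ := Nat.exists_eq_add_of_le h1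
    exact key k o ho hp h
  · obtain ⟨k, rfl⟩ := Nat.exists_eq_add_of_le h1
    exact (key k p hp ho h.symm).symm

/-- the column of the wire of the row `i` -/
def pif (φ : N3) (i : ℕ) : ℕ :=
  if i % 3 = 0 then 12 * φ.length - 1 - i / 3
  else if i < 27 * φ.length then
    (if i % 9 = 1 then 12 * φ.length + 3 * nx φ (i / 9)
    else if i % 9 = 2 then 21 * φ.length + 3 * nx φ (i / 9)
    else if i % 9 = 4 then 12 * φ.length + 3 * nx φ (i / 9) + 1
    else if i % 9 = 5 then 21 * φ.length + 3 * nx φ (i / 9) + 1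
    else if i % 9 = 7 then 21 * φ.length + 3 * (i / 9) + 2
    else 33 * φ.length + i / 9)
  else if i % 3 = 1 then 12 * φ.length + 3 * ((i - 27 * φ.length) / 3) + 2
  else 30 * φ.length + (i - 27 * φ.length) / 3

theorem pif_lt {φ : N3} {i : ℕ} (hi : i < 36 * φ.length) : pif φ i < 36 * φ.length := by
  have h : i < 27 * φ.length → nx φ (i / 9) < oc φ := fun h => (nx_spec (by unfold oc; omega)).1
  unfold oc at h
  unfold pif
  split_ifs <;> omega

theorem pif_inj {φ : N3} {i j : ℕ} (hi : i < 36 * φ.length) (hj : j < 36 * φ.length)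
    (h : pif φ i = pif φ j) : i = j := by
  have h1 : i < 27 * φ.length → nx φ (i / 9) < oc φ := fun h => (nx_spec (by unfold oc; omega)).1
  have h2 : j < 27 * φ.length → nx φ (j / 9) < oc φ := fun h => (nx_spec (by unfold oc; omega)).1
  have h3 : i < 27 * φ.length → j < 27 * φ.length → nx φ (i / 9) = nx φ (j / 9) →
    i / 9 = j / 9 := fun h h' => nx_inj (by unfold oc; omega) (by unfold oc; omega)
  unfold oc at h1 h2
  unfold pif at h
  split_ifs at h <;> omega

end Pool.Agent.J4.H63.OP
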